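import Pool.Agent.ER.Defs

/-!
# Consensus halving with polynomial valuation functions: definitions
-/

namespace Pool.Agent.NPC.ER.CH

/-- The value at `x` of the univariate polynomial with the list of rational coefficients `p`
(the entry number `i` is the coefficient of `x ^ i`). -/
noncomputable def pval (p : List ℚ) (x : ℝ) : ℝ :=
  ∑ i ∈ Finset.range p.length, ((p.getD i 0 : ℚ) : ℝ) * x ^ i

/-- `x` is a `k`-cut: `0 = x₀ ≤ x₁ ≤ … ≤ x_k ≤ x_{k+1} = 1`. -/
def IsCut (k : ℕ) (x : ℕ → ℝ) : Prop := x 0 = 0 ∧ x (k + 1) = 1 ∧ ∀ i ≤ k, x i ≤ x (i + 1)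

/-- The value `F(A₊)`: the sum of `F(x_{j+1}) - F(x_j)` over the even `j ≤ k`. -/
noncomputable def valPlus (F : ℝ → ℝ) (k : ℕ) (x : ℕ → ℝ) : ℝ :=
  ∑ j ∈ (Finset.range (k + 1)).filter Even, (F (x (j + 1)) - F (x j))

/-- The value `F(A₋)`: the sum of `F(x_{j+1}) - F(x_j)` over the odd `j ≤ k`. -/
noncomputable def valMinus (F : ℝ → ℝ) (k : ℕ) (x : ℕ → ℝ) : ℝ :=
  ∑ j ∈ (Finset.range (k + 1)).filter Odd, (F (x (j + 1)) - F (x j))

/-- The polynomial version of Consensus Halving: the instance `(l, k)` consists of a list `l` of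
polynomials, given by their lists of rational coefficients, and of a natural number `k`; the
question is whether there is a `k`-cut that is a consensus halving for the polynomials of `l`. -/
def ConsensusHalving (I : List (List ℚ) × ℕ) : Prop :=
  ∃ x : ℕ → ℝ, IsCut I.2 x ∧ ∀ p ∈ I.1, valPlus (pval p) I.2 x = valMinus (pval p) I.2 x

end Pool.Agent.NPC.ER.CH
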