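import Pool.Agent.H625R2.CH.Lap
import Pool.Agent.H612.ChRoots
import Pool.Agent.ER.Bounded

/-!
# Linear forms in the sums `B_d` encoding a system of constraints
-/

namespace Pool.Agent.NPC.ER.CH

/-! ### Parameters -/

/-- The first step of the positions. -/
def Kp (n : ℕ) : ℕ := 8 * n * n

/-- The width. -/
def wp (n : ℕ) : ℕ := 2 * n * Kp n

/-- The shift of the free coefficients. -/
def Mp (n : ℕ) : ℕ := 4 * wp n + 1

/-- The degree of the short polynomial. -/
def rp (n : ℕ) : ℕ := 5 * wp n + 1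

/-- The number of vanishing sums, plus one. -/
def sp (n : ℕ) : ℕ := 8 * wp n + 2

/-- The degree of the two reciprocal polynomials. -/
def Np (n : ℕ) : ℕ := 13 * wp n + 3

/-- Half of the number of cuts. -/
def mp (n : ℕ) : ℕ := 104 * n * n * n + 1

/-- The positions of the free coefficients. -/
def pos (n j : ℕ) : ℕ := j * Kp n + j * j

/-- The index of the sum that gives the free coefficient `j`. -/
def Qp (n j : ℕ) : ℕ := Np n - (Mp n + pos n j)

theorem Np_eq (n : ℕ) : Np n = 2 * mp n + 1 := by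
  unfold Np mp wp Kp
  ring

theorem Np_eq' (n : ℕ) : rp n + sp n = Np n := by
  unfold Np rp sp
  ring

theorem pos_lt {n j : ℕ} (hj : j < 2 * n) : pos n j < wp n := by
  unfold pos wp
  have h1 : j * j < Kp n := by
    unfold Kp
    nlinarith
  have h2 : (j + 1) * Kp n ≤ 2 * n * Kp n := Nat.mul_le_mul_right _ hj
  nlinarith

theorem pos_inj {n i j : ℕ} (h : pos n i = pos n j) : i = j := by
  unfold pos at h
  rcases lt_trichotomy i j with hij | hij | hij
  · exfalso
    have h1 : i * Kp n ≤ j * Kp n := Nat.mul_le_mul_right _ hij.le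
    nlinarith
  · exact hij
  · exfalso
    have h1 : j * Kp n ≤ i * Kp n := Nat.mul_le_mul_right _ hij.le
    nlinarith

theorem pos_sidon {n i j i' j' : ℕ} (hi : i < 2 * n) (hj : j < 2 * n) (hi' : i' < 2 * n)
    (hj' : j' < 2 * n) (hij : i ≠ j)
    (h : (pos n i : ℤ) - pos n j = (pos n i' : ℤ) - pos n j') : i = i' ∧ j = j' := by
  have hK : (Kp n : ℤ) = 8 * n * n := by unfold Kp; push_cast; ring
  have e : ∀ a : ℕ, (pos n a : ℤ) = a * Kp n + a * a := fun a => by unfold pos; push_cast; ring
  rw [e, e, e, e] at h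
  have h1 : ((i : ℤ) - j - (i' - j')) * Kp n = -((i : ℤ) * i - j * j - (i' * i' - j' * j')) := by
    linear_combination h
  have b : ∀ a : ℕ, a < 2 * n → (a : ℤ) * a < 4 * (n * n) := by
    intro a ha
    have : (a : ℤ) < 2 * n := by exact_mod_cast ha
    nlinarith [Int.natCast_nonneg a]
  have b0 : ∀ a : ℕ, (0 : ℤ) ≤ (a : ℤ) * a := fun a => by positivity
  have h2 : |((i : ℤ) - j - (i' - j')) * Kp n| < Kp n := by
    rw [h1, abs_neg, abs_lt, hK]
    have := b i hi
    have := b j hj
    have := b i' hi'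
    have := b j' hj'
    have := b0 i
    have := b0 j
    have := b0 i'
    have := b0 j'
    constructor <;> linarith
  have hKpos : (0 : ℤ) < Kp n := by
    rw [hK]
    have : 0 < n := by omega
    positivity
  have h3 : (i : ℤ) - j - (i' - j') = 0 := by
    rw [abs_mul, abs_of_pos hKpos] at h2
    have h4 : |(i : ℤ) - j - (i' - j')| < 1 := by
      by_contra h5
      push Not at h5
      have := mul_le_mul_of_nonneg_right h5 hKpos.le
      linarith
    rwa [Int.abs_lt_one_iff] at h4
  have h4 : (i : ℤ) * i - j * j - (i' * i' - j' * j') = 0 := by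
    rw [h3, zero_mul] at h1
    linarith
  have h5 : ((i : ℤ) - j) * ((i + j) - (i' + j')) = 0 := by
    have : (i' : ℤ) = i - j + j' := by linarith
    have h6 : (i : ℤ) * i - j * j - (i' - j') * (i' + j') = 0 := by linarith
    rw [show (i' : ℤ) - j' = i - j by linarith] at h6
    linear_combination h6
  have h6 : (i : ℤ) - j ≠ 0 := by
    intro h7
    apply hij
    omega
  have h7 := (mul_eq_zero.1 h5).resolve_left h6
  constructor <;> omega

/-! ### The autocorrelation -/

theorem cor_zero {n : ℕ} {p : ℕ → ℕ} (hinj : ∀ i < n, ∀ j < n, p i = p j → i = j) (h : ℕ → ℝ) :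
    cor n p h 0 = ∑ j ∈ Finset.range n, h j * h j := by
  unfold cor
  apply Finset.sum_congr rfl
  intro i hi
  rw [Finset.sum_eq_single i]
  · rw [if_pos (by omega)]
  · intro j hj hij
    rw [if_neg]
    intro he
    exact hij (hinj i (Finset.mem_range.1 hi) j (Finset.mem_range.1 hj) (by omega)).symm
  · intro h1
    exact absurd hi h1

theorem cor_single {n : ℕ} {p : ℕ → ℕ} (hs : ∀ i < n, ∀ j < n, ∀ i' < n, ∀ j' < n, i ≠ j →
    (p i : ℤ) - p j = (p i' : ℤ) - p j' → i = i' ∧ j = j') (h : ℕ → ℝ) {i j : ℕ} (hi : i < n)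
    (hj : j < n) (hij : i ≠ j) : cor n p h ((p i : ℤ) - p j) = h i * h j := by
  unfold cor
  rw [Finset.sum_eq_single i]
  · rw [Finset.sum_eq_single j]
    · rw [if_pos rfl]
    · intro j' hj' hne
      rw [if_neg]
      intro he
      exact hne (hs i hi j hj i hi j' (Finset.mem_range.1 hj') hij he.symm).2.symm
    · intro h1
      exact absurd (Finset.mem_range.2 hj) h1
  · intro i' hi' hne
    apply Finset.sum_eq_zero
    intro j' hj'
    rw [if_neg]
    intro he
    exact hne (hs i hi j hj i' (Finset.mem_range.1 hi') j' (Finset.mem_range.1 hj') hij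
      he.symm).1.symm
  · intro h1
    exact absurd (Finset.mem_range.2 hi) h1

theorem cor_big {n w : ℕ} {p : ℕ → ℕ} (hp : ∀ j < n, p j ≤ w) (h : ℕ → ℝ) {e : ℤ}
    (he : e < -w ∨ (w : ℤ) < e) : cor n p h e = 0 := by
  unfold cor
  apply Finset.sum_eq_zero
  intro i hi
  apply Finset.sum_eq_zero
  intro j hj
  have h1 := hp i (Finset.mem_range.1 hi)
  have h2 := hp j (Finset.mem_range.1 hj)
  rw [if_neg (by omega)]

theorem cor_pos (n : ℕ) (h : ℕ → ℝ) {i j : ℕ} (hi : i < 2 * n) (hj : j < 2 * n) (hij : i ≠ j) :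
    cor (2 * n) (pos n) h ((pos n i : ℤ) - pos n j) = h i * h j :=
  cor_single (fun _ h1 _ h2 _ h3 _ h4 h5 h6 => pos_sidon h1 h2 h3 h4 h5 h6) h hi hj hij

theorem cor_pos_zero (n : ℕ) (h : ℕ → ℝ) :
    cor (2 * n) (pos n) h 0 = ∑ j ∈ Finset.range (2 * n), h j * h j :=
  cor_zero (fun _ _ _ _ h5 => pos_inj h5) h

/-! ### Forms -/

/-- A linear form: pairs (index, coefficient). -/
abbrev Form := List (ℕ × ℤ)

/-- Validity of a linear form. -/
def FHolds (gd : ℕ → ℝ) (f : Form) : Prop := (f.map fun p => (p.2 : ℝ) * gd p.1).sum = 0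

/-- The sums that must vanish. -/
def fC1 (n : ℕ) : List Form := (List.range (Np n - wp n)).map fun d =>
  if d = 0 ∨ d ∈ (List.range (2 * n)).map (Qp n) then [] else [(d, 1)]

/-- The symmetry. -/
def fC2 (n : ℕ) : List Form :=
  (List.range (wp n)).map fun e => [(Np n + (e + 1), 1), (Np n - (e + 1), -1)]

/-- The high sums that must vanish. -/
def fC3 (n : ℕ) : List Form :=
  (List.range (2 * wp n)).map fun e => [(Np n + (wp n + 1 + e), 1)]

/-- The two copies of a variable are equal. -/
def fcopy (n : ℕ) : List Form :=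
  (List.range n).map fun a => [(Qp n (2 * a), 1), (Qp n (2 * a + 1), -1)]

/-- The form of value `c ε`. -/
def onef (n : ℕ) (c : ℤ) : Form :=
  (Np n, c) :: (List.range n).map fun a => (Np n + (pos n (2 * a + 1) - pos n (2 * a)), -2 * c)

/-- The distance of two positions. -/
def dif (n i j : ℕ) : ℕ := (pos n i - pos n j) + (pos n j - pos n i)

/-- The form of a constraint. -/
def fcon (n : ℕ) (vs : List ℕ) : Con → Form
  | Con.one i => (Qp n (2 * vs.idxOf i), 16 * (n : ℤ)) :: onef n (-1)
  | Con.add i j k => [(Qp n (2 * vs.idxOf i), 1), (Qp n (2 * vs.idxOf j), 1),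
      (Qp n (2 * vs.idxOf k), -1)]
  | Con.mul i j k => [(Np n + dif n (2 * vs.idxOf i) (2 * vs.idxOf j + 1), 2 * (n : ℤ)),
      (Qp n (2 * vs.idxOf k), 1)]

/-- The forms of a system. -/
def forms (n : ℕ) (vs : List ℕ) (S : List Con) : List Form :=
  fC1 n ++ (fC2 n ++ (fC3 n ++ (fcopy n ++ S.map (fcon n vs))))

/-- The values of the sums. -/
structure Good (n : ℕ) (ε : ℝ) (h gd : ℕ → ℝ) : Prop where
  hε : ε * ε = 1
  hN : ∀ e : ℕ, e ≤ wp n → gd (Np n + e) =
    ε * ((if e = 0 then 1 else 0) - cor (2 * n) (pos n) h e)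
  hQ : ∀ j < 2 * n, gd (Qp n j) = h j
  hc : ∀ a < n, h (2 * a) = h (2 * a + 1)

theorem sum_map_range (f : ℕ → ℝ) (n : ℕ) :
    ((List.range n).map f).sum = ∑ i ∈ Finset.range n, f i := by
  induction n with
  | zero => simp
  | succ n ih =>
    rw [List.range_succ, List.map_append, List.sum_append, ih, Finset.sum_range_succ]
    simp

theorem sum_range_two_mul (f : ℕ → ℝ) (n : ℕ) : ∑ j ∈ Finset.range (2 * n), f j =
    ∑ a ∈ Finset.range n, (f (2 * a) + f (2 * a + 1)) := by
  induction n with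
  | zero => simp
  | succ n ih =>
    rw [Finset.sum_range_succ, ← ih, show 2 * (n + 1) = 2 * n + 1 + 1 by ring,
      Finset.sum_range_succ, Finset.sum_range_succ]
    ring

theorem pos_mono {n i j : ℕ} (h : i < j) : pos n i < pos n j := by
  unfold pos
  have h1 : i * Kp n ≤ j * Kp n := Nat.mul_le_mul_right _ h.le
  nlinarith

theorem Good.onef_val {n : ℕ} {ε : ℝ} {h gd : ℕ → ℝ} (hg : Good n ε h gd) (c : ℤ) :
    ((onef n c).map fun p => (p.2 : ℝ) * gd p.1).sum = c * ε := by
  unfold onef
  rw [List.map_cons, List.sum_cons, List.map_map, sum_map_range]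
  have e1 : ∀ a ∈ Finset.range n, ((fun p : ℕ × ℤ => (p.2 : ℝ) * gd p.1) ∘ fun a =>
      (Np n + (pos n (2 * a + 1) - pos n (2 * a)), -2 * c)) a =
      (c * ε) * (h (2 * a) * h (2 * a) + h (2 * a + 1) * h (2 * a + 1)) := by
    intro a ha
    rw [Finset.mem_range] at ha
    simp only [Function.comp]
    have h1 := pos_mono (n := n) (show 2 * a < 2 * a + 1 by omega)
    have h2 := pos_lt (n := n) (show 2 * a + 1 < 2 * n by omega)
    rw [hg.hN _ (by omega), if_neg (by omega),
      show ((pos n (2 * a + 1) - pos n (2 * a) : ℕ) : ℤ) = (pos n (2 * a + 1) : ℤ) -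
        pos n (2 * a) by omega, cor_pos n h (by omega) (by omega) (by omega), hg.hc a ha]
    push_cast
    ring
  have e0 := hg.hN 0 (Nat.zero_le _)
  rw [if_pos rfl, Nat.cast_zero, cor_pos_zero, sum_range_two_mul, add_zero] at e0
  rw [Finset.sum_congr rfl e1, ← Finset.mul_sum]
  simp only
  rw [e0]
  ring

theorem Good.hdif {n : ℕ} {ε : ℝ} {h gd : ℕ → ℝ} (hg : Good n ε h gd) {i j : ℕ} (hi : i < n)
    (hj : j < n) : gd (Np n + dif n (2 * i) (2 * j + 1)) = -(ε * (h (2 * i) * h (2 * j))) := by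
  have h1 := pos_lt (n := n) (show 2 * i < 2 * n by omega)
  have h2 := pos_lt (n := n) (show 2 * j + 1 < 2 * n by omega)
  have hne : pos n (2 * i) ≠ pos n (2 * j + 1) := by
    intro he
    have := pos_inj he
    omega
  have hcor : cor (2 * n) (pos n) h (dif n (2 * i) (2 * j + 1) : ℕ) = h (2 * i) * h (2 * j) := by
    rw [hg.hc j hj]
    unfold dif
    rcases Nat.lt_or_ge (pos n (2 * i)) (pos n (2 * j + 1)) with h3 | h3
    · rw [show ((pos n (2 * i) - pos n (2 * j + 1) + (pos n (2 * j + 1) - pos n (2 * i)) : ℕ) : ℤ) =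
        (pos n (2 * j + 1) : ℤ) - pos n (2 * i) by omega,
        cor_pos n h (by omega) (by omega) (by omega), mul_comm]
    · rw [show ((pos n (2 * i) - pos n (2 * j + 1) + (pos n (2 * j + 1) - pos n (2 * i)) : ℕ) : ℤ) =
        (pos n (2 * i) : ℤ) - pos n (2 * j + 1) by omega,
        cor_pos n h (by omega) (by omega) (by omega)]
  have h0 : dif n (2 * i) (2 * j + 1) ≠ 0 := by unfold dif; omega
  rw [hg.hN _ (by unfold dif; omega), hcor, if_neg h0]
  ring

theorem Good.fcon_iff {n : ℕ} {ε : ℝ} {h gd : ℕ → ℝ} (hg : Good n ε h gd) {vs : List ℕ}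
    (c : Con) (hv : ∀ i ∈ c.vars, vs.idxOf i < n) : FHolds gd (fcon n vs c) ↔
      c.HoldsC (1 / 8) (fun i => 2 * n * ε * h (2 * vs.idxOf i)) := by
  have hε0 : ε ≠ 0 := by
    intro h0
    have := hg.hε
    rw [h0] at this
    norm_num at this
  have hεε := hg.hε
  cases c with
  | one i =>
    have hi := hv i (by simp [Con.vars])
    have hn0 : (n : ℝ) ≠ 0 := by
      have : 0 < n := by omega
      positivity
    unfold FHolds fcon
    rw [List.map_cons, List.sum_cons, hg.onef_val]
    simp only [Con.HoldsC]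
    rw [hg.hQ _ (by omega)]
    push_cast
    constructor
    · intro h1
      have h2 : 16 * (n : ℝ) * h (2 * List.idxOf i vs) = ε := by linarith
      have h3 : 8 * (2 * n * ε * h (2 * List.idxOf i vs)) = ε * ε := by
        rw [← h2]; ring
      rw [hεε] at h3
      linarith
    · intro h1
      have h3 : ε * (16 * n * h (2 * List.idxOf i vs) - ε) = 0 := by
        have : ε * (16 * n * h (2 * List.idxOf i vs) - ε) =
          8 * (2 * n * ε * h (2 * List.idxOf i vs)) - ε * ε := by ring
        rw [this, h1, hεε]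
        ring
      have := (mul_eq_zero.1 h3).resolve_left hε0
      linarith
  | add i j k =>
    have hi := hv i (by simp [Con.vars])
    have hj := hv j (by simp [Con.vars])
    have hk := hv k (by simp [Con.vars])
    have hn0 : (n : ℝ) ≠ 0 := by
      have : 0 < n := by omega
      positivity
    unfold FHolds fcon
    simp only [List.map_cons, List.sum_cons, List.map_nil, List.sum_nil, Con.HoldsC]
    rw [hg.hQ _ (by omega), hg.hQ _ (by omega), hg.hQ _ (by omega)]
    push_cast
    have h2 : (2 * n * ε) ≠ 0 := by positivity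
    constructor
    · intro h1
      have h3 : h (2 * List.idxOf k vs) = h (2 * List.idxOf i vs) + h (2 * List.idxOf j vs) := by
        linarith
      rw [h3]
      ring
    · intro h1
      have h3 : (2 * n * ε) * (h (2 * List.idxOf i vs) + h (2 * List.idxOf j vs) -
          h (2 * List.idxOf k vs)) = 0 := by linarith
      have := (mul_eq_zero.1 h3).resolve_left h2
      linarith
  | mul i j k =>
    have hi := hv i (by simp [Con.vars])
    have hj := hv j (by simp [Con.vars])
    have hk := hv k (by simp [Con.vars])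
    have hn0 : (n : ℝ) ≠ 0 := by
      have : 0 < n := by omega
      positivity
    unfold FHolds fcon
    simp only [List.map_cons, List.sum_cons, List.map_nil, List.sum_nil, Con.HoldsC]
    rw [hg.hQ _ (by omega), hg.hdif hi hj]
    push_cast
    have h2 : (2 * n * ε) ≠ 0 := by positivity
    constructor
    · intro h1
      have h3 : h (2 * List.idxOf k vs) =
          2 * n * ε * (h (2 * List.idxOf i vs) * h (2 * List.idxOf j vs)) := by
        linarith
      rw [h3]
      ring
    · intro h1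
      have h3 : (2 * n * ε) * (h (2 * List.idxOf k vs) -
          2 * n * ε * (h (2 * List.idxOf i vs) * h (2 * List.idxOf j vs))) = 0 := by linarith
      have := (mul_eq_zero.1 h3).resolve_left h2
      linarith

theorem holdsC_congr {κ : ℝ} {v v' : ℕ → ℝ} {c : Con} (h : ∀ i ∈ c.vars, v i = v' i) :
    c.HoldsC κ v ↔ c.HoldsC κ v' := by
  cases c with
  | one i => simp only [Con.HoldsC, h i (by simp [Con.vars])]
  | add i j k => simp only [Con.HoldsC, h i (by simp [Con.vars]), h j (by simp [Con.vars]),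
      h k (by simp [Con.vars])]
  | mul i j k => simp only [Con.HoldsC, h i (by simp [Con.vars]), h j (by simp [Con.vars]),
      h k (by simp [Con.vars])]

theorem Qp_ge {n j : ℕ} (hj : j < 2 * n) : sp n ≤ Qp n j := by
  have := pos_lt hj
  unfold Qp sp Np Mp
  omega

theorem FHolds_single {gd : ℕ → ℝ} {d : ℕ} : FHolds gd [(d, 1)] ↔ gd d = 0 := by
  simp [FHolds]

theorem FHolds_pair {gd : ℕ → ℝ} {d d' : ℕ} : FHolds gd [(d, 1), (d', -1)] ↔ gd d = gd d' := by
  simp only [FHolds, List.map_cons, List.sum_cons, List.map_nil, List.sum_nil]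
  push_cast
  constructor
  · intro h; linarith
  · intro h; linarith

theorem mem_fC1 {n : ℕ} {gd : ℕ → ℝ} : (∀ f ∈ fC1 n, FHolds gd f) ↔
    ∀ d, 1 ≤ d → d < Np n - wp n → (∀ j < 2 * n, Qp n j ≠ d) → gd d = 0 := by
  unfold fC1
  constructor
  · intro h d hd1 hd2 hd3
    have := h _ (List.mem_map.2 ⟨d, List.mem_range.2 hd2, rfl⟩)
    rw [if_neg] at this
    · exact FHolds_single.1 this
    · rintro (h1 | h1)
      · omega
      · obtain ⟨j, hj, hje⟩ := List.mem_map.1 h1
        exact hd3 j (List.mem_range.1 hj) hje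
  · intro h f hf
    obtain ⟨d, hd, rfl⟩ := List.mem_map.1 hf
    split_ifs with h1
    · simp [FHolds]
    · push Not at h1
      rw [FHolds_single]
      apply h d (by omega) (List.mem_range.1 hd)
      intro j hj hje
      exact h1.2 (List.mem_map.2 ⟨j, List.mem_range.2 hj, hje⟩)

theorem mem_fC2 {n : ℕ} {gd : ℕ → ℝ} : (∀ f ∈ fC2 n, FHolds gd f) ↔
    ∀ e, 1 ≤ e → e ≤ wp n → gd (Np n + e) = gd (Np n - e) := by
  unfold fC2
  constructor
  · intro h e h1 h2
    have := h _ (List.mem_map.2 ⟨e - 1, List.mem_range.2 (by omega), rfl⟩)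
    rw [show e - 1 + 1 = e by omega] at this
    exact FHolds_pair.1 this
  · intro h f hf
    obtain ⟨e, he, rfl⟩ := List.mem_map.1 hf
    rw [List.mem_range] at he
    exact FHolds_pair.2 (h (e + 1) (by omega) (by omega))

theorem mem_fC3 {n : ℕ} {gd : ℕ → ℝ} : (∀ f ∈ fC3 n, FHolds gd f) ↔
    ∀ e, wp n < e → e < Mp n - wp n → gd (Np n + e) = 0 := by
  unfold fC3 Mp
  constructor
  · intro h e h1 h2
    have := h _ (List.mem_map.2 ⟨e - wp n - 1, List.mem_range.2 (by omega), rfl⟩)
    rw [show wp n + 1 + (e - wp n - 1) = e by omega] at this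
    exact FHolds_single.1 this
  · intro h f hf
    obtain ⟨e, he, rfl⟩ := List.mem_map.1 hf
    rw [List.mem_range] at he
    exact FHolds_single.2 (h _ (by omega) (by omega))

theorem mem_fcopy {n : ℕ} {gd : ℕ → ℝ} : (∀ f ∈ fcopy n, FHolds gd f) ↔
    ∀ a < n, gd (Qp n (2 * a)) = gd (Qp n (2 * a + 1)) := by
  unfold fcopy
  constructor
  · intro h a ha
    exact FHolds_pair.1 (h _ (List.mem_map.2 ⟨a, List.mem_range.2 ha, rfl⟩))
  · intro h f hf
    obtain ⟨a, ha, rfl⟩ := List.mem_map.1 hf
    exact FHolds_pair.2 (h a (List.mem_range.1 ha))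

theorem mem_forms {n : ℕ} {vs : List ℕ} {S : List Con} {gd : ℕ → ℝ} :
    (∀ f ∈ forms n vs S, FHolds gd f) ↔ (∀ f ∈ fC1 n, FHolds gd f) ∧ (∀ f ∈ fC2 n, FHolds gd f) ∧
      (∀ f ∈ fC3 n, FHolds gd f) ∧ (∀ f ∈ fcopy n, FHolds gd f) ∧
      ∀ c ∈ S, FHolds gd (fcon n vs c) := by
  unfold forms
  simp only [List.forall_mem_append, List.forall_mem_map]

/-- The normalised sum of index `d`. -/
noncomputable def gdn (c : ℕ → ℝ) (m d : ℕ) : ℝ := Bn c m d / (2 * d)

theorem gg_eq (c : ℕ → ℝ) (m s n : ℕ) : gg c m s n = gdn c m (n + s) := by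
  unfold gg gdn
  push_cast
  rfl

theorem Rel.mono {r b b' : ℕ} {a g : ℕ → ℝ} (h : Rel r b a g) (hb : b' ≤ b) : Rel r b' a g :=
  fun n hn => h n (lt_of_lt_of_le hn hb)

/-- **Soundness.** -/
theorem enc_sound {S : List Con} {n : ℕ} {vs : List ℕ}
    (hv : ∀ c ∈ S, ∀ i ∈ c.vars, vs.idxOf i < n) {c : ℕ → ℝ}
    (h : ∀ f ∈ forms n vs S, FHolds (gdn c (mp n)) f) : ∃ w : ℕ → ℝ, ∀ c ∈ S, c.HoldsC (1 / 8) w := by
  rw [mem_forms, mem_fC1, mem_fC2, mem_fC3, mem_fcopy] at h
  obtain ⟨h1, h2, h3, h4, h5⟩ := h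
  have hs : 1 ≤ sp n := by unfold sp; omega
  have hN : rp n + sp n = 2 * mp n + 1 := by rw [Np_eq', Np_eq]
  have eN := Np_eq' n
  have hB : ∀ d, 1 ≤ d → d < sp n → Bn c (mp n) d = 0 := by
    intro d hd1 hd2
    have := h1 d hd1 (by unfold Np sp at *; omega) (fun j hj he => by
      have := Qp_ge hj
      omega)
    unfold gdn at this
    have hd0 : (2 * (d : ℝ)) ≠ 0 := by positivity
    exact (div_eq_zero_iff.1 this).resolve_right hd0
  obtain ⟨a, a0, hU, hW⟩ := ser_exists hs hN hB
  have hrel : Rel (rp n) (2 * Mp n) a (gg c (mp n) (sp n)) :=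
    Rel.mono (b := 2 * sp n) (ser_core hs a0 hU hW).2 (by unfold Mp sp; omega)
  have hg : ∀ e, e ≤ rp n → gg c (mp n) (sp n) (rp n - e) = gdn c (mp n) (Np n - e) := by
    intro e he
    rw [gg_eq]
    congr 1
    omega
  have hg' : ∀ e, gg c (mp n) (sp n) (rp n + e) = gdn c (mp n) (Np n + e) := by
    intro e
    rw [gg_eq]
    congr 1
    omega
  have hMr : ∀ j < 2 * n, Mp n + pos n j ≤ rp n := by
    intro j hj
    have := pos_lt hj
    unfold Mp rp
    omega
  obtain ⟨ε, hε, hcor⟩ := lap_sound (w := wp n) (M := Mp n) (r := rp n) (n := 2 * n) (p := pos n)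
    (by unfold Mp; omega) (by unfold Mp rp; omega) rfl (fun j hj => (pos_lt hj).le)
    (fun i _ j _ hij => pos_inj hij) a0 hrel
    (fun i hi1 hi2 hi3 => by
      rw [hg i hi2]
      apply h1 _ (by unfold rp Np at *; omega) (by unfold rp Np at *; omega)
      intro j hj he
      apply hi3 j hj
      have := hMr j hj
      unfold Qp at he
      omega)
    (fun e he1 he2 => by
      rw [hg e (by unfold rp; omega), hg']
      exact h2 e he1 he2)
    (fun e he1 he2 => by
      rw [hg']
      exact h3 e he1 he2)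
  have hgood : Good n ε (fun j => gg c (mp n) (sp n) (rp n - (Mp n + pos n j)))
      (gdn c (mp n)) := by
    refine ⟨?_, ?_, ?_, ?_⟩
    · rcases hε with h | h <;> rw [h] <;> norm_num
    · intro e he
      rw [← hg', hcor e he]
    · intro j hj
      rw [hg _ (hMr j hj)]
      rfl
    · intro a ha
      rw [hg _ (hMr _ (by omega)), hg _ (hMr _ (by omega))]
      exact h4 a ha
  refine ⟨_, fun c' hc' => (hgood.fcon_iff c' (hv c' hc')).1 (h5 c' hc')⟩

/-- **Completeness.** -/
theorem enc_complete {S : List Con} {n : ℕ} {vs : List ℕ} (hn : 1 ≤ n)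
    (hv : ∀ c ∈ S, ∀ i ∈ c.vars, i ∈ vs) (hlen : vs.length ≤ n) {w : ℕ → ℝ}
    (hw : ∀ i, |w i| ≤ 1 / 8) (hS : ∀ c ∈ S, c.HoldsC (1 / 8) w) :
    ∃ c : ℕ → ℝ, (∀ j < 2 * mp n, -1 < c j ∧ c j < 1) ∧
      (∀ j, j + 1 < 2 * mp n → c (j + 1) < c j) ∧
      ∀ f ∈ forms n vs S, FHolds (gdn c (mp n)) f := by
  have hs : 1 ≤ sp n := by unfold sp; omega
  have hN : rp n + sp n = 2 * mp n + 1 := by rw [Np_eq', Np_eq]
  have eN := Np_eq' n
  have hn0 : (0 : ℝ) < n := by exact_mod_cast hn
  set h : ℕ → ℝ := fun j => w (vs.getD (j / 2) 0) / (2 * n) with hh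
  set a : ℕ → ℝ := aco (2 * n) (Mp n) (pos n) h with ha
  have hMr : ∀ j < 2 * n, Mp n + pos n j ≤ rp n := by
    intro j hj
    have := pos_lt hj
    unfold Mp rp
    omega
  have a0 : a 0 = 1 := by
    rw [ha]
    unfold aco
    rw [if_pos rfl, Finset.sum_eq_zero, add_zero]
    intro j _
    rw [if_neg (by unfold Mp; omega)]
  have ar : ∀ i, rp n < i → a i = 0 := by
    intro i hi
    rw [ha]
    unfold aco
    rw [if_neg (by omega), Finset.sum_eq_zero, add_zero]
    intro j hj
    have := hMr j (Finset.mem_range.1 hj)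
    rw [if_neg (by omega)]
  have hhb : ∀ j, |h j| ≤ 1 / 8 / (2 * n) := by
    intro j
    rw [hh]
    simp only
    rw [abs_div, abs_of_pos (show (0 : ℝ) < 2 * n by positivity)]
    exact div_le_div_of_nonneg_right (hw _) (by positivity)
  have hsum : ∑ i ∈ Finset.Icc 1 (rp n), |a i| ≤ 1 / 2 := by
    calc ∑ i ∈ Finset.Icc 1 (rp n), |a i| ≤ ∑ i ∈ Finset.Icc 1 (rp n),
        ∑ j ∈ Finset.range (2 * n), (if Mp n + pos n j = i then |h j| else 0) := by
          apply Finset.sum_le_sum
          intro i hi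
          rw [Finset.mem_Icc] at hi
          rw [ha]
          unfold aco
          rw [if_neg (by omega), zero_add]
          refine (Finset.abs_sum_le_sum_abs _ _).trans (le_of_eq ?_)
          apply Finset.sum_congr rfl
          intro j _
          split_ifs <;> simp
      _ = ∑ j ∈ Finset.range (2 * n), ∑ i ∈ Finset.Icc 1 (rp n),
          (if Mp n + pos n j = i then |h j| else 0) := Finset.sum_comm
      _ ≤ ∑ j ∈ Finset.range (2 * n), (1 / 8 / (2 * n) : ℝ) := by
          apply Finset.sum_le_sum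
          intro j _
          rw [Finset.sum_ite_eq]
          split_ifs
          · exact hhb j
          · positivity
      _ = 1 / 8 := by
          rw [Finset.sum_const, Finset.card_range, nsmul_eq_mul]
          push_cast
          field_simp
      _ ≤ 1 / 2 := by norm_num
  obtain ⟨c, hc1, hc2, hU, hW⟩ := exists_cuts hN hs a a0 ar hsum
  refine ⟨c, hc1, hc2, ?_⟩
  obtain ⟨hB, hrel0⟩ := ser_core (c := c) (m := mp n) hs a0 hU hW
  have hrel : Rel (rp n) (2 * Mp n) a (gg c (mp n) (sp n)) :=
    Rel.mono (b := 2 * sp n) hrel0 (by unfold Mp sp; omega)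
  have hposle : ∀ j < 2 * n, pos n j ≤ wp n := fun j hj => (pos_lt hj).le
  have key : ∀ k < 2 * Mp n, gdn c (mp n) (k + sp n) =
      (al (2 * n) (Mp n) (pos n) h).coeff ((rp n : ℤ) - k) +
        ((if k = rp n then 1 else 0) - cor (2 * n) (pos n) h ((k : ℤ) - rp n)) := by
    intro k hk
    rw [← gg_eq]
    exact lap_complete (w := wp n) (by unfold Mp; omega) (by unfold Mp rp; omega) rfl hposle
      hrel hk
  have hal : ∀ i : ℤ, i < Mp n → (al (2 * n) (Mp n) (pos n) h).coeff i = 0 := fun i hi =>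
    Lo_al h i hi
  have hinj : ∀ i < 2 * n, ∀ j < 2 * n, pos n i = pos n j → i = j := fun i _ j _ hij => pos_inj hij
  have hgood : Good n 1 h (gdn c (mp n)) := by
    refine ⟨by norm_num, ?_, ?_, ?_⟩
    · intro e he
      have h1 := key (rp n + e) (by unfold Mp rp; omega)
      rw [show rp n + e + sp n = Np n + e by omega] at h1
      rw [h1, hal _ (by unfold Mp; omega),
        show ((rp n + e : ℕ) : ℤ) - rp n = e by omega]
      by_cases he0 : e = 0
      · rw [if_pos he0, if_pos (by omega)]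
        ring
      · rw [if_neg he0, if_neg (by omega)]
        ring
    · intro j hj
      have h0 := hMr j hj
      have h1 := key (rp n - (Mp n + pos n j)) (by unfold Mp rp; omega)
      rw [show rp n - (Mp n + pos n j) + sp n = Qp n j by unfold Qp; omega,
        show (rp n : ℤ) - ((rp n - (Mp n + pos n j) : ℕ) : ℤ) = (Mp n : ℤ) + pos n j by omega,
        coeff_al_eq hinj h hj, if_neg (by unfold Mp at *; omega),
        cor_big hposle h (Or.inl (by unfold Mp at *; omega))] at h1
      rw [h1]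
      ring
    · intro a _
      rw [hh]
      simp only
      rw [show 2 * a / 2 = a by omega, show (2 * a + 1) / 2 = a by omega]
  rw [mem_forms, mem_fC1, mem_fC2, mem_fC3, mem_fcopy]
  refine ⟨?_, ?_, ?_, ?_, ?_⟩
  · intro d hd1 hd2 hd3
    by_cases hds : d < sp n
    · unfold gdn
      rw [hB d hd1 hds, zero_div]
    · have h1 := key (d - sp n) (by unfold Np Mp sp at *; omega)
      rw [show d - sp n + sp n = d by omega, if_neg (by unfold Np rp sp at *; omega),
        cor_big hposle h (Or.inl (by unfold Np rp sp at *; omega)),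
        coeff_al_ne (fun j hj he => hd3 j hj ?_)] at h1
      · rw [h1]
        ring
      · have h5 := hMr j hj
        have h6 : Mp n + pos n j = rp n - (d - sp n) := by omega
        unfold Qp
        omega
  · intro e he1 he2
    rw [hgood.hN e he2]
    have h1 := key (rp n - e) (by unfold Mp rp; omega)
    rw [show rp n - e + sp n = Np n - e by unfold rp at *; omega, hal _ (by unfold Mp rp; omega),
      if_neg (by unfold rp; omega),
      show ((rp n - e : ℕ) : ℤ) - rp n = -(e : ℤ) by unfold rp; omega, cor_neg] at h1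
    rw [h1, if_neg (by omega)]
    ring
  · intro e he1 he2
    have h1 := key (rp n + e) (by unfold Mp rp at *; omega)
    rw [show rp n + e + sp n = Np n + e by omega, hal _ (by unfold Mp; omega),
      if_neg (by omega), cor_big hposle h (Or.inr (by omega))] at h1
    rw [h1]
    ring
  · intro a ha
    rw [hgood.hQ _ (by omega), hgood.hQ _ (by omega)]
    exact hgood.hc a ha
  · intro c' hc'
    have hidx : ∀ i ∈ c'.vars, vs.idxOf i < vs.length := fun i hi =>
      List.idxOf_lt_length_of_mem (hv c' hc' i hi)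
    rw [hgood.fcon_iff c' fun i hi => lt_of_lt_of_le (hidx i hi) hlen]
    refine (holdsC_congr fun i hi => ?_).1 (hS c' hc')
    rw [hh]
    simp only
    rw [show 2 * List.idxOf i vs / 2 = List.idxOf i vs by omega,
      List.getD_eq_getElem _ _ (hidx i hi), List.getElem_idxOf]
    field_simp

/-- The number of variables of the encoded system, plus one. -/
def nvar (S : List Con) : ℕ := (svars (bsys S)).length + 1

/-- The forms of a system. -/
def sforms (S : List Con) : List Form := forms (nvar S) (svars (bsys S)) (bsys S)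

theorem sat_of_sforms {S : List Con} {c : ℕ → ℝ}
    (h : ∀ f ∈ sforms S, FHolds (gdn c (mp (nvar S))) f) : Sat S := by
  obtain ⟨w, hw⟩ := enc_sound (fun c hc i hi => by
    have := List.idxOf_lt_length_of_mem (mem_svars hc hi)
    unfold nvar
    omega) h
  exact sat_of_bsys hw

theorem sforms_of_sat {S : List Con} (h : Sat S) : ∃ c : ℕ → ℝ,
    (∀ j < 2 * mp (nvar S), -1 < c j ∧ c j < 1) ∧
      (∀ j, j + 1 < 2 * mp (nvar S) → c (j + 1) < c j) ∧
      ∀ f ∈ sforms S, FHolds (gdn c (mp (nvar S))) f := by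
  obtain ⟨w, hw, hS⟩ := bsys_of_sat h
  exact enc_complete (by unfold nvar; omega) (fun c hc i hi => mem_svars hc hi)
    (by unfold nvar; omega) hw hS

end Pool.Agent.NPC.ER.CH
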