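import Mathlib

/-!
# Logarithmic derivatives of products of reciprocal quadratics
-/

namespace Pool.Agent.NPC.ER.CH

open PowerSeries

/-- The values `T_n(c)` of the Chebyshev polynomials. -/
def tch (c : ℝ) : ℕ → ℝ
  | 0 => 1
  | 1 => c
  | n + 2 => 2 * c * tch c (n + 1) - tch c n

/-- The alternating sum. -/
noncomputable def Bn (c : ℕ → ℝ) (m d : ℕ) : ℝ :=
  1 - (-1) ^ d - 2 * ∑ i ∈ Finset.range m, tch (c (2 * i)) d +
    2 * ∑ i ∈ Finset.range m, tch (c (2 * i + 1)) d

/-- The quadratic polynomial with roots `e^{±iφ}`, `c = cos φ`. -/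
noncomputable def qd (c : ℝ) : Polynomial ℝ :=
  1 - Polynomial.C (2 * c) * Polynomial.X + Polynomial.X ^ 2

/-- The first product. -/
noncomputable def Up (c : ℕ → ℝ) (m : ℕ) : Polynomial ℝ :=
  (1 + Polynomial.X) * ∏ i ∈ Finset.range m, qd (c (2 * i))

/-- The second product. -/
noncomputable def Wp (c : ℕ → ℝ) (m : ℕ) : Polynomial ℝ :=
  (1 - Polynomial.X) * ∏ i ∈ Finset.range m, qd (c (2 * i + 1))

/-- The polynomial with coefficients `a 0, …, a r`. -/
noncomputable def Apl (a : ℕ → ℝ) (r : ℕ) : Polynomial ℝ :=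
  ∑ i ∈ Finset.range (r + 1), Polynomial.C (a i) * Polynomial.X ^ i

/-- The reversed polynomial. -/
noncomputable def Arev (a : ℕ → ℝ) (r s : ℕ) : Polynomial ℝ :=
  ∑ i ∈ Finset.range (r + 1), Polynomial.C (a i) * Polynomial.X ^ (r + s - i)

/-! ### Logarithmic derivatives -/

/-- `β` is the logarithmic derivative of `f`. -/
def LD (f β : ℝ⟦X⟧) : Prop := d⁄dX ℝ f = f * β

theorem LD.mul {f g β γ : ℝ⟦X⟧} (hf : LD f β) (hg : LD g γ) : LD (f * g) (β + γ) := by
  unfold LD at *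
  rw [Derivation.leibniz, hf, hg, smul_eq_mul, smul_eq_mul]
  ring

theorem LD.prod {m : ℕ} {f β : ℕ → ℝ⟦X⟧} (h : ∀ i, LD (f i) (β i)) :
    LD (∏ i ∈ Finset.range m, f i) (∑ i ∈ Finset.range m, β i) := by
  induction m with
  | zero =>
    unfold LD
    simp
  | succ m ih =>
    rw [Finset.prod_range_succ, Finset.sum_range_succ]
    exact ih.mul (h m)

theorem LD_one_add : LD (1 + X) (mk fun n => (-1 : ℝ) ^ n) := by
  unfold LD
  have h1 : d⁄dX ℝ (1 + X : ℝ⟦X⟧) = 1 := by
    rw [map_add, derivative_one, derivative_X, zero_add]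
  rw [h1]
  ext n
  rw [add_mul, one_mul, map_add]
  cases n with
  | zero => simp
  | succ n =>
    rw [coeff_succ_X_mul, coeff_mk, coeff_mk, coeff_one, if_neg (by omega)]
    ring

theorem LD_one_sub : LD (1 - X) (mk fun _ => (-1 : ℝ)) := by
  unfold LD
  have h1 : d⁄dX ℝ (1 - X : ℝ⟦X⟧) = -1 := by
    rw [map_sub, derivative_one, derivative_X, zero_sub]
  rw [h1]
  ext n
  rw [sub_mul, one_mul, map_sub]
  cases n with
  | zero => simp
  | succ n =>
    rw [coeff_succ_X_mul, coeff_mk, coeff_mk, map_neg, coeff_one, if_neg (by omega)]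
    ring

theorem LD_qd (c : ℝ) : LD (qd c : ℝ⟦X⟧) (mk fun n => -2 * tch c (n + 1)) := by
  unfold LD
  have h0 : (qd c : ℝ⟦X⟧) = 1 - C (2 * c) * X + X ^ 2 := by
    unfold qd
    simp
  have h1 : d⁄dX ℝ (qd c : ℝ⟦X⟧) = -C (2 * c) + 2 * X := by
    rw [derivative_coe]
    unfold qd
    simp only [Polynomial.derivative_add, Polynomial.derivative_sub, Polynomial.derivative_one,
      Polynomial.derivative_C_mul, Polynomial.derivative_X, Polynomial.derivative_X_pow]
    rw [Polynomial.coe_add, Polynomial.coe_sub, Polynomial.coe_mul, Polynomial.coe_mul]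
    simp only [Polynomial.coe_zero, Polynomial.coe_one, Polynomial.coe_C, Polynomial.coe_pow,
      Polynomial.coe_X]
    have e2 : (C ((2 : ℕ) : ℝ) : ℝ⟦X⟧) = 2 := by
      rw [map_natCast]; norm_num
    rw [e2]
    ring
  rw [h1, h0]
  ext n
  have e3 : (1 - C (2 * c) * X + X ^ 2) * (mk fun n => -2 * tch c (n + 1)) =
      (mk fun n => -2 * tch c (n + 1)) - C (2 * c) * (X * (mk fun n => -2 * tch c (n + 1))) +
      X * (X * (mk fun n => -2 * tch c (n + 1))) := by ring
  have e2 : (2 : ℝ⟦X⟧) * X = C 2 * X := by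
    congr 1
  rw [e3, e2, map_add, map_add, map_sub, coeff_C_mul, map_neg, coeff_C_mul]
  match n with
  | 0 => simp [tch]
  | 1 =>
    rw [coeff_succ_X_mul, coeff_succ_X_mul, coeff_mk, coeff_mk]
    simp [tch]
    ring
  | n + 2 =>
    rw [coeff_succ_X_mul, coeff_succ_X_mul, coeff_succ_X_mul, coeff_mk, coeff_mk, coeff_mk,
      coeff_C, if_neg (by omega), coeff_X, if_neg (by omega)]
    simp only [tch]
    ring

theorem coe_prod' (f : ℕ → Polynomial ℝ) (m : ℕ) :
    ((∏ i ∈ Finset.range m, f i : Polynomial ℝ) : ℝ⟦X⟧) =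
      ∏ i ∈ Finset.range m, (f i : ℝ⟦X⟧) := by
  induction m with
  | zero => simp
  | succ m ih => rw [Finset.prod_range_succ, Finset.prod_range_succ, Polynomial.coe_mul, ih]

theorem LD_Up (c : ℕ → ℝ) (m : ℕ) : LD (Up c m : ℝ⟦X⟧) ((mk fun n => (-1 : ℝ) ^ n) +
    ∑ i ∈ Finset.range m, mk fun n => -2 * tch (c (2 * i)) (n + 1)) := by
  have h : (Up c m : ℝ⟦X⟧) = (1 + X) * ∏ i ∈ Finset.range m, (qd (c (2 * i)) : ℝ⟦X⟧) := by
    unfold Up
    rw [Polynomial.coe_mul, Polynomial.coe_add, Polynomial.coe_one, Polynomial.coe_X]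
    congr 1
    exact coe_prod' _ _
  rw [h]
  exact LD_one_add.mul (LD.prod fun i => LD_qd _)

theorem LD_Wp (c : ℕ → ℝ) (m : ℕ) : LD (Wp c m : ℝ⟦X⟧) ((mk fun _ => (-1 : ℝ)) +
    ∑ i ∈ Finset.range m, mk fun n => -2 * tch (c (2 * i + 1)) (n + 1)) := by
  have h : (Wp c m : ℝ⟦X⟧) = (1 - X) * ∏ i ∈ Finset.range m, (qd (c (2 * i + 1)) : ℝ⟦X⟧) := by
    unfold Wp
    rw [Polynomial.coe_mul, Polynomial.coe_sub, Polynomial.coe_one, Polynomial.coe_X]
    congr 1
    exact coe_prod' _ _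
  rw [h]
  exact LD_one_sub.mul (LD.prod fun i => LD_qd _)

/-- The difference of the logarithmic derivatives. -/
noncomputable def Bs (c : ℕ → ℝ) (m : ℕ) : ℝ⟦X⟧ := mk fun n => Bn c m (n + 1)

theorem Bs_eq (c : ℕ → ℝ) (m : ℕ) : Bs c m = ((mk fun n => (-1 : ℝ) ^ n) +
    ∑ i ∈ Finset.range m, mk fun n => -2 * tch (c (2 * i)) (n + 1)) -
    ((mk fun _ => (-1 : ℝ)) + ∑ i ∈ Finset.range m, mk fun n => -2 * tch (c (2 * i + 1)) (n + 1)) := by
  ext n
  rw [map_sub, map_add, map_add, map_sum, map_sum]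
  simp only [coeff_mk, Bs, Bn]
  rw [← Finset.mul_sum, ← Finset.mul_sum]
  ring

/-! ### The fundamental identity -/

theorem key_identity {U W A D F β γ B : ℝ⟦X⟧} (hU : LD U β) (hW : LD W γ) (hB : B = β - γ)
    (h1 : U = A + D) (h2 : W = A - D) (hF : D = A * F) (hA : A ≠ 0) :
    2 * d⁄dX ℝ F = (1 - F ^ 2) * B := by
  unfold LD at hU hW
  have e1 : d⁄dX ℝ U = d⁄dX ℝ A + d⁄dX ℝ D := by rw [h1, map_add]
  have e2 : d⁄dX ℝ W = d⁄dX ℝ A - d⁄dX ℝ D := by rw [h2, map_sub]
  have e3 : d⁄dX ℝ D = A * d⁄dX ℝ F + F * d⁄dX ℝ A := by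
    rw [hF, Derivation.leibniz, smul_eq_mul, smul_eq_mul]
  have e4 : d⁄dX ℝ U * W - U * d⁄dX ℝ W = U * W * B := by
    rw [hU, hW, hB]; ring
  have e5 : A * A * (2 * d⁄dX ℝ F) = A * A * ((1 - F ^ 2) * B) := by
    have h5 : U * W * B = A * A * ((1 - F ^ 2) * B) := by
      rw [h1, h2, hF]; ring
    rw [← h5, ← e4, e1, e2, h1, h2, e3, hF]
    ring
  exact mul_left_cancel₀ (mul_ne_zero hA hA) e5

theorem dvd_derivative_iff {F : ℝ⟦X⟧} (h0 : coeff 0 F = 0) {s : ℕ} (hs : 1 ≤ s) :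
    X ^ (s - 1) ∣ d⁄dX ℝ F ↔ X ^ s ∣ F := by
  rw [X_pow_dvd_iff, X_pow_dvd_iff]
  constructor
  · intro h m hm
    cases m with
    | zero => exact h0
    | succ m =>
      have := h m (by omega)
      rw [coeff_derivative] at this
      rcases mul_eq_zero.1 this with h1 | h1
      · exact h1
      · exfalso
        have : (m : ℝ) + 1 ≠ 0 := by positivity
        exact this h1
  · intro h m hm
    rw [coeff_derivative, h (m + 1) (by omega), zero_mul]

/-- The two consequences of the identity `2F' = (1 - F²)B`. -/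
theorem series_main {F B : ℝ⟦X⟧} (h : 2 * d⁄dX ℝ F = (1 - F ^ 2) * B) (h0 : coeff 0 F = 0)
    {s : ℕ} (hs : 1 ≤ s) : ((∀ n < s - 1, coeff n B = 0) ↔ X ^ s ∣ F) ∧
    (X ^ s ∣ F → ∀ n < 2 * s, coeff (n + s - 1) B = 2 * (n + s : ℝ) * coeff (n + s) F) := by
  have hu : IsUnit (1 - F ^ 2) := by
    rw [isUnit_iff_constantCoeff]
    have : constantCoeff F = 0 := by rwa [← coeff_zero_eq_constantCoeff_apply]
    simp [this]
  have h2 : IsUnit (2 : ℝ⟦X⟧) := by
    rw [isUnit_iff_constantCoeff]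
    have : constantCoeff (2 : ℝ⟦X⟧) = 2 := by
      exact map_ofNat _ 2
    rw [this]
    norm_num
  have key : X ^ (s - 1) ∣ B ↔ X ^ (s - 1) ∣ d⁄dX ℝ F := by
    rw [← hu.dvd_mul_left (a := X ^ (s - 1)) (b := B), ← h, h2.dvd_mul_left]
  constructor
  · rw [← X_pow_dvd_iff, key, dvd_derivative_iff h0 hs]
  · intro hF n hn
    have hB : B = 2 * d⁄dX ℝ F + F ^ 2 * B := by rw [h]; ring
    have hd : X ^ (3 * s - 1) ∣ F ^ 2 * B := by
      have h3 : X ^ (s - 1) ∣ B := key.2 ((dvd_derivative_iff h0 hs).2 hF)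
      have h4 : (X : ℝ⟦X⟧) ^ (3 * s - 1) = (X ^ s) ^ 2 * X ^ (s - 1) := by
        rw [← pow_mul, ← pow_add]
        congr 1
        omega
      rw [h4]
      exact mul_dvd_mul (pow_dvd_pow_of_dvd hF 2) h3
    have h5 := X_pow_dvd_iff.1 hd (n + s - 1) (by omega)
    rw [hB, map_add, h5, add_zero]
    have e2 : (2 : ℝ⟦X⟧) = C 2 := rfl
    rw [e2, coeff_C_mul, coeff_derivative]
    have e3 : n + s - 1 + 1 = n + s := by omega
    have e4 : ((n + s - 1 : ℕ) : ℝ) + 1 = n + s := by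
      have : ((n + s - 1 + 1 : ℕ) : ℝ) = ((n + s : ℕ) : ℝ) := by rw [e3]
      push_cast at this
      exact this
    rw [e3, e4]
    ring

/-! ### Coefficients -/

theorem coeff_Apl (a : ℕ → ℝ) (r i : ℕ) : (Apl a r).coeff i = if i ≤ r then a i else 0 := by
  unfold Apl
  rw [Polynomial.finsetSum_coeff]
  simp only [Polynomial.coeff_C_mul_X_pow]
  split_ifs with h
  · rw [Finset.sum_eq_single i]
    · rw [if_pos rfl]
    · intro j _ hj
      rw [if_neg (Ne.symm hj)]
    · intro h1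
      exact absurd (Finset.mem_range.2 (by omega)) h1
  · apply Finset.sum_eq_zero
    intro j hj
    rw [Finset.mem_range] at hj
    rw [if_neg (by omega)]

theorem coeff_Arev (a : ℕ → ℝ) (r s i : ℕ) :
    (Arev a r s).coeff i = if s ≤ i ∧ i ≤ r + s then a (r + s - i) else 0 := by
  unfold Arev
  rw [Polynomial.finsetSum_coeff]
  simp only [Polynomial.coeff_C_mul_X_pow]
  split_ifs with h
  · rw [Finset.sum_eq_single (r + s - i)]
    · rw [if_pos (by omega)]
    · intro j hj1 hj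
      rw [Finset.mem_range] at hj1
      rw [if_neg (by omega)]
    · intro h1
      exact absurd (Finset.mem_range.2 (by omega)) h1
  · apply Finset.sum_eq_zero
    intro j hj
    rw [Finset.mem_range] at hj
    rw [if_neg (by omega)]

/-- The normalised sums. -/
noncomputable def gg (c : ℕ → ℝ) (m s n : ℕ) : ℝ := Bn c m (n + s) / (2 * (n + s : ℝ))

/-- The relation between the coefficients and the normalised sums. -/
theorem ser_core {c : ℕ → ℝ} {m : ℕ} {a : ℕ → ℝ} {r s : ℕ} (hs : 1 ≤ s) (h0 : a 0 = 1)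
    (hU : Apl a r + Arev a r s = Up c m) (hW : Apl a r - Arev a r s = Wp c m) :
    (∀ d, 1 ≤ d → d < s → Bn c m d = 0) ∧
    ∀ n < 2 * s, ∑ i ∈ Finset.range (n + 1), (if i ≤ r then a i else 0) * gg c m s (n - i) =
      if n ≤ r then a (r - n) else 0 := by
  set A : ℝ⟦X⟧ := (Apl a r : ℝ⟦X⟧) with hA
  set D : ℝ⟦X⟧ := (Arev a r s : ℝ⟦X⟧) with hD
  have cA : ∀ i, coeff i A = if i ≤ r then a i else 0 := fun i => by
    rw [hA, Polynomial.coeff_coe, coeff_Apl]
  have cD : ∀ i, coeff i D = if s ≤ i ∧ i ≤ r + s then a (r + s - i) else 0 := fun i => by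
    rw [hD, Polynomial.coeff_coe, coeff_Arev]
  have hAu : IsUnit A := by
    rw [isUnit_iff_constantCoeff, ← coeff_zero_eq_constantCoeff_apply, cA, if_pos (Nat.zero_le _),
      h0]
    exact isUnit_one
  obtain ⟨u, hu⟩ := hAu
  obtain ⟨F, hF⟩ : ∃ F, D = A * F := ⟨(↑u⁻¹ : ℝ⟦X⟧) * D, by rw [← mul_assoc, ← hu]; simp⟩
  have hAu : IsUnit A := ⟨u, hu⟩
  have hU' : (Up c m : ℝ⟦X⟧) = A + D := by rw [← hU, Polynomial.coe_add]
  have hW' : (Wp c m : ℝ⟦X⟧) = A - D := by rw [← hW, Polynomial.coe_sub]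
  have key := key_identity (LD_Up c m) (LD_Wp c m) (Bs_eq c m) hU' hW' hF hAu.ne_zero
  have hsD : X ^ s ∣ D := by
    rw [X_pow_dvd_iff]
    intro i hi
    rw [cD, if_neg (by omega)]
  have hsF : X ^ s ∣ F := by
    rwa [hF, hAu.dvd_mul_left] at hsD
  have hF0 : coeff 0 F = 0 := X_pow_dvd_iff.1 hsF 0 (by omega)
  obtain ⟨h1, h2⟩ := series_main key hF0 hs
  constructor
  · intro d hd hds
    have := h1.2 hsF (d - 1) (by omega)
    rw [Bs, coeff_mk] at this
    rwa [Nat.sub_add_cancel hd] at this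
  · intro n hn
    have hg : ∀ j ≤ n, coeff (j + s) F = gg c m s j := by
      intro j hj
      have h3 := h2 hsF j (by omega)
      rw [Bs, coeff_mk] at h3
      have e : j + s - 1 + 1 = j + s := by omega
      rw [e] at h3
      unfold gg
      have h4 : (j + s : ℝ) ≠ 0 := by positivity
      rw [h3]
      field_simp
    have h5 : coeff (n + s) D = if n ≤ r then a (r - n) else 0 := by
      rw [cD]
      by_cases hr : n ≤ r
      · rw [if_pos (by omega), if_pos hr]
        congr 1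
        omega
      · rw [if_neg (by omega), if_neg hr]
    rw [← h5, hF, coeff_mul, Finset.Nat.sum_antidiagonal_eq_sum_range_succ
      (f := fun i j => coeff i A * coeff j F)]
    rw [← Finset.sum_subset (s₁ := Finset.range (n + 1)) (s₂ := Finset.range (n + s).succ)]
    · apply Finset.sum_congr rfl
      intro i hi
      rw [Finset.mem_range] at hi
      have e : n + s - i = (n - i) + s := by omega
      rw [e, hg (n - i) (by omega), cA]
    · intro i hi
      rw [Finset.mem_range] at hi ⊢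
      omega
    · intro i hi hi'
      rw [Finset.mem_range] at hi hi'
      rw [X_pow_dvd_iff.1 hsF (n + s - i) (by omega), mul_zero]

/-! ### Palindromic polynomials -/

theorem natDegree_qd (c : ℝ) : (qd c).natDegree ≤ 2 := by
  unfold qd
  compute_degree

theorem reflect_qd (c : ℝ) : Polynomial.reflect 2 (qd c) = qd c := by
  unfold qd
  rw [Polynomial.reflect_add, Polynomial.reflect_sub]
  have h1 : Polynomial.reflect 2 (1 : Polynomial ℝ) = Polynomial.X ^ 2 := by
    rw [Polynomial.reflect_one]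
  have h2 : Polynomial.reflect 2 (Polynomial.C (2 * c) * Polynomial.X : Polynomial ℝ) =
      Polynomial.C (2 * c) * Polynomial.X := by
    have := Polynomial.reflect_C_mul_X_pow (R := ℝ) 2 1 (c := 2 * c)
    rw [pow_one] at this
    rw [this]
    simp [Polynomial.revAt]
  have h3 : Polynomial.reflect 2 (Polynomial.X ^ 2 : Polynomial ℝ) = 1 := by
    have := Polynomial.reflect_C_mul_X_pow (R := ℝ) 2 2 (c := 1)
    rw [Polynomial.C_1, one_mul] at this
    rw [this]
    simp [Polynomial.revAt]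
  rw [h1, h2, h3]
  ring

theorem natDegree_prod_qd (f : ℕ → ℝ) (m : ℕ) :
    (∏ i ∈ Finset.range m, qd (f i)).natDegree ≤ 2 * m := by
  refine (Polynomial.natDegree_prod_le _ _).trans ?_
  refine (Finset.sum_le_card_nsmul _ _ 2 fun i _ => natDegree_qd _).trans ?_
  rw [Finset.card_range, smul_eq_mul, mul_comm]

theorem reflect_prod_qd (f : ℕ → ℝ) (m : ℕ) :
    Polynomial.reflect (2 * m) (∏ i ∈ Finset.range m, qd (f i)) =
      ∏ i ∈ Finset.range m, qd (f i) := by
  induction m with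
  | zero => simp
  | succ m ih =>
    rw [Finset.prod_range_succ, Nat.mul_succ,
      Polynomial.reflect_mul _ _ (natDegree_prod_qd f m) (natDegree_qd _), ih, reflect_qd]

theorem reflect_Up (c : ℕ → ℝ) (m : ℕ) : Polynomial.reflect (2 * m + 1) (Up c m) = Up c m := by
  unfold Up
  have hd : (1 + Polynomial.X : Polynomial ℝ).natDegree ≤ 1 := by compute_degree
  rw [add_comm (2 * m) 1, Polynomial.reflect_mul _ _ hd (natDegree_prod_qd (fun i => c (2 * i)) m),
    reflect_prod_qd (fun i => c (2 * i))]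
  congr 1
  rw [Polynomial.reflect_add]
  have h1 : Polynomial.reflect 1 (1 : Polynomial ℝ) = Polynomial.X := by
    rw [Polynomial.reflect_one, pow_one]
  have h3 : Polynomial.reflect 1 (Polynomial.X : Polynomial ℝ) = 1 := by
    have := Polynomial.reflect_C_mul_X_pow (R := ℝ) 1 1 (c := 1)
    rw [Polynomial.C_1, one_mul, pow_one] at this
    rw [this]
    simp [Polynomial.revAt]
  rw [h1, h3, add_comm]

theorem reflect_Wp (c : ℕ → ℝ) (m : ℕ) : Polynomial.reflect (2 * m + 1) (Wp c m) = -Wp c m := by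
  unfold Wp
  have hd : (1 - Polynomial.X : Polynomial ℝ).natDegree ≤ 1 := by compute_degree
  rw [add_comm (2 * m) 1,
    Polynomial.reflect_mul _ _ hd (natDegree_prod_qd (fun i => c (2 * i + 1)) m),
    reflect_prod_qd (fun i => c (2 * i + 1)), ← neg_mul]
  congr 1
  rw [Polynomial.reflect_sub]
  have h1 : Polynomial.reflect 1 (1 : Polynomial ℝ) = Polynomial.X := by
    rw [Polynomial.reflect_one, pow_one]
  have h3 : Polynomial.reflect 1 (Polynomial.X : Polynomial ℝ) = 1 := by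
    have := Polynomial.reflect_C_mul_X_pow (R := ℝ) 1 1 (c := 1)
    rw [Polynomial.C_1, one_mul, pow_one] at this
    rw [this]
    simp [Polynomial.revAt]
  rw [h1, h3, neg_sub]

theorem coeff_symm_Up (c : ℕ → ℝ) (m i : ℕ) (hi : i ≤ 2 * m + 1) :
    (Up c m).coeff (2 * m + 1 - i) = (Up c m).coeff i := by
  conv_rhs => rw [← reflect_Up]
  rw [Polynomial.coeff_reflect, Polynomial.revAt_le hi]

theorem coeff_symm_Wp (c : ℕ → ℝ) (m i : ℕ) (hi : i ≤ 2 * m + 1) :
    (Wp c m).coeff (2 * m + 1 - i) = -(Wp c m).coeff i := by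
  have h := congrArg (fun p : Polynomial ℝ => p.coeff i) (reflect_Wp c m)
  simp only [Polynomial.coeff_neg] at h
  rw [Polynomial.coeff_reflect, Polynomial.revAt_le hi] at h
  exact h

theorem natDegree_Up (c : ℕ → ℝ) (m : ℕ) : (Up c m).natDegree ≤ 2 * m + 1 := by
  unfold Up
  have hd : (1 + Polynomial.X : Polynomial ℝ).natDegree ≤ 1 := by compute_degree
  refine Polynomial.natDegree_mul_le.trans ?_
  have := natDegree_prod_qd (fun i => c (2 * i)) m
  omega

theorem natDegree_Wp (c : ℕ → ℝ) (m : ℕ) : (Wp c m).natDegree ≤ 2 * m + 1 := by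
  unfold Wp
  have hd : (1 - Polynomial.X : Polynomial ℝ).natDegree ≤ 1 := by compute_degree
  refine Polynomial.natDegree_mul_le.trans ?_
  have := natDegree_prod_qd (fun i => c (2 * i + 1)) m
  omega

theorem coeff_zero_Up (c : ℕ → ℝ) (m : ℕ) : (Up c m).coeff 0 = 1 := by
  unfold Up
  rw [Polynomial.mul_coeff_zero, Polynomial.coeff_zero_prod]
  simp [qd]

theorem coeff_zero_Wp (c : ℕ → ℝ) (m : ℕ) : (Wp c m).coeff 0 = 1 := by
  unfold Wp
  rw [Polynomial.mul_coeff_zero, Polynomial.coeff_zero_prod]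
  simp [qd]

/-- Vanishing of the first sums gives a short polynomial. -/
theorem ser_exists {c : ℕ → ℝ} {m r s : ℕ} (hs : 1 ≤ s) (hN : r + s = 2 * m + 1)
    (hB : ∀ d, 1 ≤ d → d < s → Bn c m d = 0) :
    ∃ a : ℕ → ℝ, a 0 = 1 ∧ Apl a r + Arev a r s = Up c m ∧ Apl a r - Arev a r s = Wp c m := by
  set a : ℕ → ℝ := fun i => ((Up c m).coeff i + (Wp c m).coeff i) / 2 with ha
  have h0 : a 0 = 1 := by
    rw [ha]
    simp only
    rw [coeff_zero_Up, coeff_zero_Wp]
    norm_num
  -- the polynomials A and D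
  set Ap : Polynomial ℝ := Polynomial.C (1 / 2) * (Up c m + Wp c m) with hAp
  set Dp : Polynomial ℝ := Polynomial.C (1 / 2) * (Up c m - Wp c m) with hDp
  have cAp : ∀ i, Ap.coeff i = a i := fun i => by
    rw [hAp, Polynomial.coeff_C_mul, Polynomial.coeff_add, ha]; ring
  have cDp : ∀ i ≤ 2 * m + 1, Dp.coeff i = a (2 * m + 1 - i) := fun i hi => by
    rw [hDp, Polynomial.coeff_C_mul, Polynomial.coeff_sub, ha]
    simp only
    rw [coeff_symm_Up c m i hi, coeff_symm_Wp c m i hi]; ring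
  have hC : (Polynomial.C (1 / 2) : Polynomial ℝ) + Polynomial.C (1 / 2) = 1 := by
    rw [← Polynomial.C_add]; norm_num
  have hUp : Up c m = Ap + Dp := by
    have : Ap + Dp = (Polynomial.C (1 / 2) + Polynomial.C (1 / 2)) * Up c m := by
      rw [hAp, hDp]; ring
    rw [this, hC, one_mul]
  have hWp : Wp c m = Ap - Dp := by
    have : Ap - Dp = (Polynomial.C (1 / 2) + Polynomial.C (1 / 2)) * Wp c m := by
      rw [hAp, hDp]; ring
    rw [this, hC, one_mul]
  set A : ℝ⟦X⟧ := (Ap : ℝ⟦X⟧) with hA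
  set D : ℝ⟦X⟧ := (Dp : ℝ⟦X⟧) with hD
  have hAu : IsUnit A := by
    rw [isUnit_iff_constantCoeff, ← coeff_zero_eq_constantCoeff_apply, hA, Polynomial.coeff_coe,
      cAp, h0]
    exact isUnit_one
  obtain ⟨u, hu⟩ := hAu
  obtain ⟨F, hF⟩ : ∃ F, D = A * F := ⟨(↑u⁻¹ : ℝ⟦X⟧) * D, by rw [← mul_assoc, ← hu]; simp⟩
  have hAu : IsUnit A := ⟨u, hu⟩
  have hU' : (Up c m : ℝ⟦X⟧) = A + D := by
    conv_lhs => rw [hUp, Polynomial.coe_add]
  have hW' : (Wp c m : ℝ⟦X⟧) = A - D := by
    conv_lhs => rw [hWp, Polynomial.coe_sub]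
  have key := key_identity (LD_Up c m) (LD_Wp c m) (Bs_eq c m) hU' hW' hF hAu.ne_zero
  have hD0 : coeff 0 D = 0 := by
    rw [hD, Polynomial.coeff_coe, hDp, Polynomial.coeff_C_mul, Polynomial.coeff_sub,
      coeff_zero_Up, coeff_zero_Wp]
    ring
  have hF0 : coeff 0 F = 0 := by
    have h1 : X ∣ D := X_dvd_iff.2 (by rwa [← coeff_zero_eq_constantCoeff_apply])
    rw [hF, hAu.dvd_mul_left] at h1
    rw [coeff_zero_eq_constantCoeff_apply]
    exact X_dvd_iff.1 h1
  obtain ⟨h1, _⟩ := series_main key hF0 hs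
  have hsF : X ^ s ∣ F := h1.1 fun n hn => by
    rw [Bs, coeff_mk]
    exact hB (n + 1) (by omega) (by omega)
  have hsD : X ^ s ∣ D := by rw [hF]; exact hsF.mul_left A
  have hz : ∀ i, r < i → a i = 0 := by
    intro i hi
    by_cases hi2 : i ≤ 2 * m + 1
    · have h3 := X_pow_dvd_iff.1 hsD (2 * m + 1 - i) (by omega)
      rw [hD, Polynomial.coeff_coe, cDp _ (by omega)] at h3
      have e : 2 * m + 1 - (2 * m + 1 - i) = i := by omega
      rwa [e] at h3
    · rw [← cAp, hAp, Polynomial.coeff_C_mul, Polynomial.coeff_add,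
        Polynomial.coeff_eq_zero_of_natDegree_lt (by have := natDegree_Up c m; omega),
        Polynomial.coeff_eq_zero_of_natDegree_lt (by have := natDegree_Wp c m; omega)]
      ring
  have eA : Apl a r = Ap := by
    ext i
    rw [coeff_Apl, cAp]
    split_ifs with h
    · rfl
    · exact (hz i (by omega)).symm
  have eD : Arev a r s = Dp := by
    ext i
    rw [coeff_Arev]
    by_cases hi : i ≤ 2 * m + 1
    · rw [cDp i hi]
      split_ifs with h
      · congr 1
        omega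
      · rw [hz _ (by omega)]
    · rw [if_neg (by omega), hDp, Polynomial.coeff_C_mul, Polynomial.coeff_sub,
        Polynomial.coeff_eq_zero_of_natDegree_lt (by have := natDegree_Up c m; omega),
        Polynomial.coeff_eq_zero_of_natDegree_lt (by have := natDegree_Wp c m; omega)]
      ring
  exact ⟨a, h0, by rw [eA, eD, hUp], by rw [eA, eD, hWp]⟩

end Pool.Agent.NPC.ER.CH
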