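import Pool.Agent.H625R2.CH.Laur
import Pool.Agent.H625R2.CH.Ser

/-!
# From the recurrence to Laurent polynomials and back
-/

namespace Pool.Agent.NPC.ER.CH

open LaurentPolynomial

/-- A sum of monomials. -/
noncomputable def LS {ι : Type} (I : Finset ι) (v : ι → ℝ) (q : ι → ℤ) : LP :=
  ∑ i ∈ I, C (v i) * T (q i)

section

variable {ι κ : Type}

theorem coeff_LS (I : Finset ι) (v : ι → ℝ) (q : ι → ℤ) (n : ℤ) :
    (LS I v q).coeff n = ∑ i ∈ I, if q i = n then v i else 0 := by
  unfold LS
  rw [AddMonoidAlgebra.coeff_sum, Finsupp.finsetSum_apply]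
  apply Finset.sum_congr rfl
  intro i _
  rw [← LaurentPolynomial.single_eq_C_mul_T, AddMonoidAlgebra.coeff_single,
    Finsupp.single_apply]

theorem LS_mul (I : Finset ι) (J : Finset κ) (v : ι → ℝ) (u : κ → ℝ) (q : ι → ℤ) (p : κ → ℤ) :
    LS I v q * LS J u p =
      LS (I ×ˢ J) (fun x => v x.1 * u x.2) (fun x => q x.1 + p x.2) := by
  unfold LS
  rw [Finset.sum_mul_sum, Finset.sum_product]
  apply Finset.sum_congr rfl
  intro i _
  apply Finset.sum_congr rfl
  intro j _
  rw [map_mul, T_add]
  ring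

theorem invert_LS (I : Finset ι) (v : ι → ℝ) (q : ι → ℤ) :
    invert (LS I v q) = LS I v (fun i => -q i) := by
  unfold LS
  rw [map_sum]
  apply Finset.sum_congr rfl
  intro i _
  rw [map_mul, invert_C, invert_T]

theorem Lo_LS {I : Finset ι} {v : ι → ℝ} {q : ι → ℤ} {a : ℤ} (h : ∀ i ∈ I, a ≤ q i) :
    Lo a (LS I v q) := by
  intro n hn
  rw [coeff_LS]
  apply Finset.sum_eq_zero
  intro i hi
  rw [if_neg]
  intro he
  have := h i hi
  omega

theorem Hi_LS {I : Finset ι} {v : ι → ℝ} {q : ι → ℤ} {a : ℤ} (h : ∀ i ∈ I, q i ≤ a) :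
    Hi a (LS I v q) := by
  intro n hn
  rw [coeff_LS]
  apply Finset.sum_eq_zero
  intro i hi
  rw [if_neg]
  intro he
  have := h i hi
  omega

end

theorem Lo_of_mul {b : ℤ} {A κ : LP} (hA : Lo 0 A) (hA0 : A.coeff 0 = 1) (h : Lo b (A * κ)) :
    Lo b κ := by
  intro n hn
  by_contra hne
  have h0 : κ.coeff.support.Nonempty := ⟨n, Finsupp.mem_support_iff.2 hne⟩
  have h1 : ∀ k < κ.coeff.support.min' h0, κ.coeff k = 0 := by
    intro k hk
    by_contra hk1
    have := κ.coeff.support.min'_le k (Finsupp.mem_support_iff.2 hk1)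
    omega
  have h2 : κ.coeff.support.min' h0 ≤ n := κ.coeff.support.min'_le n (Finsupp.mem_support_iff.2 hne)
  have h3 := κ.coeff.support.min'_mem h0
  rw [Finsupp.mem_support_iff] at h3
  have h4 := coeff_low hA (show Lo _ κ from h1)
  rw [hA0, one_mul, zero_add, h _ (by omega)] at h4
  exact h3 h4.symm

/-- The relation between the coefficients and the sums. -/
def Rel (r b : ℕ) (a g : ℕ → ℝ) : Prop := ∀ n < b,
  ∑ i ∈ Finset.range (n + 1), (if i ≤ r then a i else 0) * g (n - i) =
    if n ≤ r then a (r - n) else 0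

/-- The first Laurent polynomial. -/
noncomputable def AL (r : ℕ) (a : ℕ → ℝ) : LP := LS (Finset.range (r + 1)) a (fun i => (i : ℤ))

/-- The second Laurent polynomial. -/
noncomputable def Gser (r b : ℕ) (g : ℕ → ℝ) : LP :=
  LS (Finset.range b) g (fun j => (j : ℤ) - r)

theorem coeff_AL (r : ℕ) (a : ℕ → ℝ) (i : ℕ) :
    (AL r a).coeff i = if i ≤ r then a i else 0 := by
  unfold AL
  rw [coeff_LS]
  split_ifs with h
  · rw [Finset.sum_eq_single i]
    · rw [if_pos rfl]
    · intro j _ hj
      rw [if_neg (by omega)]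
    · intro h1
      exact absurd (Finset.mem_range.2 (by omega)) h1
  · apply Finset.sum_eq_zero
    intro j hj
    rw [Finset.mem_range] at hj
    rw [if_neg (by omega)]

theorem Lo_AL (r : ℕ) (a : ℕ → ℝ) : Lo 0 (AL r a) := Lo_LS fun i _ => by omega

theorem Hi_AL (r : ℕ) (a : ℕ → ℝ) : Hi r (AL r a) := Hi_LS fun i hi => by
  rw [Finset.mem_range] at hi; omega

theorem coeff_Gser {r b : ℕ} (g : ℕ → ℝ) {k : ℕ} (hk : k < b) {n : ℤ} (hn : n = (k : ℤ) - r) :
    (Gser r b g).coeff n = g k := by
  unfold Gser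
  rw [coeff_LS, Finset.sum_eq_single k]
  · rw [if_pos hn.symm]
  · intro j _ hj
    rw [if_neg (by omega)]
  · intro h1
    exact absurd (Finset.mem_range.2 hk) h1

theorem Lo_Gser (r b : ℕ) (g : ℕ → ℝ) : Lo (-(r : ℤ)) (Gser r b g) := Lo_LS fun i _ => by omega

theorem Rel.lo {r b : ℕ} {a g : ℕ → ℝ} (h : Rel r b a g) :
    Lo ((b : ℤ) - r) (AL r a * Gser r b g - invert (AL r a)) := by
  intro n hn
  rw [AddMonoidAlgebra.coeff_sub, Finsupp.sub_apply]
  by_cases hnr : n < -r
  · rw [(Lo_AL r a).mul (Lo_Gser r b g) n (by omega), (Hi_AL r a).invert n hnr, sub_zero]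
  · obtain ⟨k, hk⟩ : ∃ k : ℕ, n = (k : ℤ) - r := ⟨(n + r).toNat, by omega⟩
    have hkb : k < b := by omega
    have h1 : (AL r a * Gser r b g).coeff n = if k ≤ r then a (r - k) else 0 := by
      rw [← h k hkb]
      unfold AL Gser
      rw [LS_mul, coeff_LS, Finset.sum_product]
      simp only
      have h2 : ∀ i ∈ Finset.range (r + 1), (∑ j ∈ Finset.range b,
          if (i : ℤ) + ((j : ℤ) - r) = n then a i * g j else 0) =
          if i ≤ k then a i * g (k - i) else 0 := by
        intro i _
        split_ifs with hik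
        · rw [Finset.sum_eq_single (k - i)]
          · rw [if_pos (by omega)]
          · intro j _ hj
            rw [if_neg (by omega)]
          · intro h1
            exact absurd (Finset.mem_range.2 (by omega)) h1
        · apply Finset.sum_eq_zero
          intro j _
          rw [if_neg (by omega)]
      rw [Finset.sum_congr rfl h2, ← Finset.sum_filter]
      simp only [ite_mul, zero_mul]
      rw [← Finset.sum_filter]
      apply Finset.sum_congr
      · ext i
        simp only [Finset.mem_filter, Finset.mem_range]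
        omega
      · intro i _
        rfl
    rw [h1, invert_apply]
    split_ifs with hkr
    · rw [show -n = ((r - k : ℕ) : ℤ) by omega, coeff_AL, if_pos (by omega), sub_self]
    · rw [Lo_AL r a _ (by omega), sub_zero]

section

variable {w M r n : ℕ} {p : ℕ → ℕ}

/-- The Laurent polynomial of the free coefficients. -/
noncomputable def al (n M : ℕ) (p : ℕ → ℕ) (h : ℕ → ℝ) : LP :=
  LS (Finset.range n) h (fun j => (M : ℤ) + p j)

/-- The autocorrelation. -/
noncomputable def cor (n : ℕ) (p : ℕ → ℕ) (h : ℕ → ℝ) (e : ℤ) : ℝ :=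
  ∑ i ∈ Finset.range n, ∑ j ∈ Finset.range n, if (p i : ℤ) - p j = e then h i * h j else 0

theorem cor_neg (n : ℕ) (p : ℕ → ℕ) (h : ℕ → ℝ) (e : ℤ) : cor n p h (-e) = cor n p h e := by
  unfold cor
  rw [Finset.sum_comm]
  apply Finset.sum_congr rfl
  intro i _
  apply Finset.sum_congr rfl
  intro j _
  by_cases hij : (p i : ℤ) - p j = e
  · rw [if_pos hij, if_pos (by omega), mul_comm]
  · rw [if_neg hij, if_neg (by omega)]

theorem coeff_al_mul (n M : ℕ) (p : ℕ → ℕ) (h : ℕ → ℝ) (e : ℤ) :
    (al n M p h * invert (al n M p h)).coeff e = cor n p h e := by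
  unfold al cor
  rw [invert_LS, LS_mul, coeff_LS, Finset.sum_product]
  apply Finset.sum_congr rfl
  intro i _
  apply Finset.sum_congr rfl
  intro j _
  simp only
  by_cases hij : (p i : ℤ) - p j = e
  · rw [if_pos hij, if_pos (by omega)]
  · rw [if_neg hij, if_neg (by omega)]

theorem Lo_al (h : ℕ → ℝ) : Lo M (al n M p h) := Lo_LS fun i _ => by omega

theorem Hi_al (hp : ∀ j < n, p j ≤ w) (h : ℕ → ℝ) : Hi ((M : ℤ) + w) (al n M p h) :=
  Hi_LS fun i hi => by
    have := hp i (Finset.mem_range.1 hi)
    omega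

theorem coeff_al {i : ℤ} (h : ℕ → ℝ) : (al n M p h).coeff i =
    ∑ j ∈ Finset.range n, if (M : ℤ) + p j = i then h j else 0 := coeff_LS _ _ _ _

theorem coeff_al_eq (hinj : ∀ i < n, ∀ j < n, p i = p j → i = j) (h : ℕ → ℝ) {j : ℕ} (hj : j < n) :
    (al n M p h).coeff ((M : ℤ) + p j) = h j := by
  rw [coeff_al, Finset.sum_eq_single j]
  · rw [if_pos rfl]
  · intro i hi hij
    rw [if_neg]
    intro he
    exact hij (hinj i (Finset.mem_range.1 hi) j hj (by omega))
  · intro h1
    exact absurd (Finset.mem_range.2 hj) h1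

theorem coeff_al_ne {i : ℤ} (hi : ∀ j < n, (M : ℤ) + p j ≠ i) (h : ℕ → ℝ) :
    (al n M p h).coeff i = 0 := by
  rw [coeff_al]
  apply Finset.sum_eq_zero
  intro j hj
  rw [if_neg (hi j (Finset.mem_range.1 hj))]

theorem coeff_one_apply (e : ℤ) : (1 : LP).coeff e = if e = 0 then 1 else 0 := by
  rw [coeff_one_LP, Finsupp.single_apply]
  simp only [eq_comm]

/-- Soundness: the autocorrelation can be read off. -/
theorem lap_sound (hM : 4 * w < M) (hr : r = M + w) {b : ℕ} (hb : b = 2 * M)
    (hp : ∀ j < n, p j ≤ w) (hinj : ∀ i < n, ∀ j < n, p i = p j → i = j)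
    {a g : ℕ → ℝ} (h0 : a 0 = 1) (hrel : Rel r b a g)
    (h1 : ∀ i, w < i → i ≤ r → (∀ j < n, M + p j ≠ i) → g (r - i) = 0)
    (h2 : ∀ e, 1 ≤ e → e ≤ w → g (r + e) = g (r - e))
    (h3 : ∀ e, w < e → e < M - w → g (r + e) = 0) :
    ∃ ε : ℝ, (ε = 1 ∨ ε = -1) ∧ ∀ e : ℕ, e ≤ w → g (r + e) =
      ε * ((if e = 0 then 1 else 0) - cor n p (fun j => g (r - (M + p j))) e) := by
  set h : ℕ → ℝ := fun j => g (r - (M + p j)) with hh
  set α := al n M p h with hα
  -- the middle part
  set s : LP := LS (Finset.range (2 * w + 1)) (fun j => g (r - w + j)) (fun j => (j : ℤ) - w)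
    with hs
  have cs : ∀ j : ℕ, j < 2 * w + 1 → ∀ n : ℤ, n = (j : ℤ) - w → s.coeff n = g (r - w + j) := by
    intro j hj n hn
    rw [hs, coeff_LS, Finset.sum_eq_single j]
    · rw [if_pos hn.symm]
    · intro i _ hij
      rw [if_neg (by omega)]
    · intro h1
      exact absurd (Finset.mem_range.2 hj) h1
  have hslo : Lo (-(w : ℤ)) s := Lo_LS fun i _ => by omega
  have hshi : Hi w s := Hi_LS fun i hi => by
    rw [Finset.mem_range] at hi; omega
  have hαlo : Lo M α := Lo_al h
  have hαhi : Hi ((M : ℤ) + w) α := Hi_al hp h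
  have hsym : invert s = s := by
    ext e
    rw [invert_apply]
    by_cases he : e < -w ∨ (w : ℤ) < e
    · rcases he with he | he
      · rw [hshi _ (by omega), hslo _ he]
      · rw [hslo _ (by omega), hshi _ he]
    · push Not at he
      obtain ⟨j, hj⟩ : ∃ j : ℕ, e = (j : ℤ) - w := ⟨(e + w).toNat, by omega⟩
      rw [cs (2 * w - j) (by omega) _ (by omega), cs j (by omega) _ hj]
      rcases lt_trichotomy j w with hjw | hjw | hjw
      · have := h2 (w - j) (by omega) (by omega)
        rw [show r - w + (2 * w - j) = r + (w - j) by omega, this]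
        congr 1
        omega
      · subst hjw
        congr 1
        omega
      · have := h2 (j - w) (by omega) (by omega)
        rw [show r - w + j = r + (j - w) by omega, this]
        congr 1
        omega
  have hG : Lo ((M : ℤ) - w) (Gser r b g - (invert α + s)) := by
    intro e he
    rw [AddMonoidAlgebra.coeff_sub, Finsupp.sub_apply, AddMonoidAlgebra.coeff_add,
      Finsupp.add_apply, invert_apply]
    by_cases her : e < -r
    · rw [Lo_Gser r b g e her, hαhi _ (by omega), hslo _ (by omega)]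
      ring
    · obtain ⟨k, hk⟩ : ∃ k : ℕ, e = (k : ℤ) - r := ⟨(e + r).toNat, by omega⟩
      rw [coeff_Gser g (by omega) hk]
      by_cases hew : e < -w
      · rw [hslo _ hew, add_zero]
        by_cases hex : ∃ j < n, M + p j = r - k
        · obtain ⟨j, hj, hjk⟩ := hex
          rw [show -e = (M : ℤ) + p j by omega, coeff_al_eq hinj h hj, hh]
          simp only
          rw [show r - (M + p j) = k by omega, sub_self]
        · push Not at hex
          have := h1 (r - k) (by omega) (by omega) hex
          rw [show r - (r - k) = k by omega] at this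
          rw [this, coeff_al_ne (fun j hj => ?_), sub_zero]
          have := hex j hj
          omega
      · by_cases hew2 : e ≤ w
        · rw [hαlo _ (by omega), cs (k - (r - w)) (by omega) e (by omega),
            show r - w + (k - (r - w)) = k by omega]
          ring
        · rw [hαlo _ (by omega), hshi _ (by omega)]
          have := h3 (k - r) (by omega) (by omega)
          rw [show r + (k - r) = k by omega] at this
          rw [this]
          ring
  have hAL0 : (AL r a).coeff 0 = 1 := by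
    have := coeff_AL r a 0
    rw [if_pos (Nat.zero_le _), h0] at this
    exact_mod_cast this
  have hE : Lo ((M : ℤ) - w) (AL r a * (invert α + s) - invert (AL r a)) := by
    have e1 : AL r a * (invert α + s) - invert (AL r a) =
        (AL r a * Gser r b g - invert (AL r a)) - AL r a * (Gser r b g - (invert α + s)) := by ring
    rw [e1]
    refine (hrel.lo.mono (by omega)).sub ?_
    exact (Lo_AL r a).mul' hG (by omega)
  have key := rigid (w := w) (M := M) (by omega) (by omega) (Lo_AL r a)
    ((Hi_AL r a).mono (by omega)) hAL0 hαlo hαhi hslo hshi hsym hE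
  have hse : ∀ e : ℕ, e ≤ w → s.coeff e = g (r + e) := by
    intro e he
    rw [cs (w + e) (by omega) _ (by omega)]
    congr 1
    omega
  rcases key with hk | hk
  · refine ⟨1, Or.inl rfl, fun e he => ?_⟩
    rw [← hse e he, hk, AddMonoidAlgebra.coeff_sub, Finsupp.sub_apply, coeff_one_apply,
      coeff_al_mul]
    simp
  · refine ⟨-1, Or.inr rfl, fun e he => ?_⟩
    rw [← hse e he, hk, AddMonoidAlgebra.coeff_sub, Finsupp.sub_apply, coeff_one_apply,
      coeff_al_mul]
    simp

/-- The coefficients of `1 + α`. -/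
noncomputable def aco (n M : ℕ) (p : ℕ → ℕ) (h : ℕ → ℝ) (i : ℕ) : ℝ :=
  (if i = 0 then 1 else 0) + ∑ j ∈ Finset.range n, if M + p j = i then h j else 0

/-- Completeness: the sums are given by the autocorrelation. -/
theorem lap_complete (_hM : 4 * w < M) (hr : r = M + w) {b : ℕ} (hb : b = 2 * M)
    (hp : ∀ j < n, p j ≤ w) {h g : ℕ → ℝ} (hrel : Rel r b (aco n M p h) g) {k : ℕ} (hk : k < b) :
    g k = (al n M p h).coeff ((r : ℤ) - k) + ((if k = r then 1 else 0) - cor n p h ((k : ℤ) - r)) := by
  set α := al n M p h with hα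
  have hαlo : Lo M α := Lo_al h
  have hαhi : Hi ((M : ℤ) + w) α := Hi_al hp h
  have hA : AL r (aco n M p h) = 1 + α := by
    ext e
    rw [AddMonoidAlgebra.coeff_add, Finsupp.add_apply, coeff_one_apply]
    by_cases he : e < 0
    · rw [Lo_AL _ _ e he, hαlo e (by omega), if_neg (by omega), add_zero]
    · obtain ⟨i, hi⟩ : ∃ i : ℕ, e = i := ⟨e.toNat, by omega⟩
      rw [hi, coeff_AL, hα, coeff_al]
      have e2 : (∑ j ∈ Finset.range n, if (M : ℤ) + p j = i then h j else 0) =
          ∑ j ∈ Finset.range n, if M + p j = i then h j else 0 := by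
        apply Finset.sum_congr rfl
        intro j _
        by_cases hj : M + p j = i
        · rw [if_pos hj, if_pos (by omega)]
        · rw [if_neg hj, if_neg (by omega)]
      rw [e2]
      split_ifs with h4 h5 h5
      · unfold aco
        rw [if_pos (by omega)]
      · unfold aco
        rw [if_neg (by omega)]
      · omega
      · symm
        rw [zero_add]
        apply Finset.sum_eq_zero
        intro j hj
        have := hp j (Finset.mem_range.1 hj)
        rw [if_neg (by omega)]
  have h0 : (AL r (aco n M p h)).coeff 0 = 1 := by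
    rw [hA, AddMonoidAlgebra.coeff_add, Finsupp.add_apply, coeff_one_apply, if_pos rfl]
    rcases Nat.eq_zero_or_pos M with h5 | h5
    · omega
    · rw [hαlo 0 (by omega), add_zero]
  obtain ⟨Gh, hGh⟩ : ∃ Gh, Gh = invert α + (1 - α * invert α) := ⟨_, rfl⟩
  have hinv : invert (AL r (aco n M p h)) = 1 + invert α := by rw [hA, map_add, map_one]
  have hlow : Lo ((M : ℤ) - w) (Gser r b g - Gh) := by
    apply Lo_of_mul (Lo_AL r (aco n M p h)) h0
    have e1 : AL r (aco n M p h) * (Gser r b g - Gh) =
        (AL r (aco n M p h) * Gser r b g - invert (AL r (aco n M p h))) -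
          (α - α * (α * invert α)) := by
      rw [hinv, hGh, mul_sub, hA]
      ring
    rw [e1]
    refine (hrel.lo.mono (by omega)).sub ((hαlo.mono (by omega)).sub ?_)
    exact hαlo.mul' (hαlo.mul' hαhi.invert le_rfl) (by omega)
  have h6 := hlow ((k : ℤ) - r) (by omega)
  rw [AddMonoidAlgebra.coeff_sub, Finsupp.sub_apply, coeff_Gser g hk rfl, sub_eq_zero] at h6
  rw [h6, hGh, AddMonoidAlgebra.coeff_add, Finsupp.add_apply, AddMonoidAlgebra.coeff_sub,
    Finsupp.sub_apply, coeff_one_apply, coeff_al_mul, invert_apply, neg_sub]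
  congr 2
  by_cases hkr : k = r
  · rw [if_pos hkr, if_pos (by omega)]
  · rw [if_neg hkr, if_neg (by omega)]

end

end Pool.Agent.NPC.ER.CH
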