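import Mathlib

/-!
# An algebraic lemma on Laurent polynomials
-/

namespace Pool.Agent.NPC.ER.CH

open LaurentPolynomial

/-- Laurent polynomials over the reals. -/
abbrev LP : Type := LaurentPolynomial ℝ

/-- All exponents are at least `a`. -/
def Lo (a : ℤ) (f : LP) : Prop := ∀ n < a, f.coeff n = 0

/-- All exponents are at most `b`. -/
def Hi (b : ℤ) (f : LP) : Prop := ∀ n, b < n → f.coeff n = 0

theorem Lo.mono {a b : ℤ} {f : LP} (h : Lo a f) (hb : b ≤ a) : Lo b f :=
  fun n hn => h n (lt_of_lt_of_le hn hb)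

theorem Hi.mono {a b : ℤ} {f : LP} (h : Hi a f) (hb : a ≤ b) : Hi b f :=
  fun n hn => h n (lt_of_le_of_lt hb hn)

theorem Lo.add {a : ℤ} {f g : LP} (hf : Lo a f) (hg : Lo a g) : Lo a (f + g) := fun n hn => by
  rw [AddMonoidAlgebra.coeff_add, Finsupp.add_apply, hf n hn, hg n hn, add_zero]

theorem Hi.add {a : ℤ} {f g : LP} (hf : Hi a f) (hg : Hi a g) : Hi a (f + g) := fun n hn => by
  rw [AddMonoidAlgebra.coeff_add, Finsupp.add_apply, hf n hn, hg n hn, add_zero]

theorem Lo.sub {a : ℤ} {f g : LP} (hf : Lo a f) (hg : Lo a g) : Lo a (f - g) := fun n hn => by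
  rw [AddMonoidAlgebra.coeff_sub, Finsupp.sub_apply, hf n hn, hg n hn, sub_zero]

theorem Hi.sub {a : ℤ} {f g : LP} (hf : Hi a f) (hg : Hi a g) : Hi a (f - g) := fun n hn => by
  rw [AddMonoidAlgebra.coeff_sub, Finsupp.sub_apply, hf n hn, hg n hn, sub_zero]

theorem Lo.neg {a : ℤ} {f : LP} (hf : Lo a f) : Lo a (-f) := fun n hn => by
  rw [AddMonoidAlgebra.coeff_neg, Finsupp.neg_apply, hf n hn, neg_zero]

theorem Hi.neg {a : ℤ} {f : LP} (hf : Hi a f) : Hi a (-f) := fun n hn => by
  rw [AddMonoidAlgebra.coeff_neg, Finsupp.neg_apply, hf n hn, neg_zero]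

theorem Lo.mul {a b : ℤ} {f g : LP} (hf : Lo a f) (hg : Lo b g) : Lo (a + b) (f * g) := by
  classical
  intro n hn
  rw [AddMonoidAlgebra.coeff_mul, Finsupp.sum]
  apply Finset.sum_eq_zero
  intro i hi
  rw [Finsupp.sum]
  apply Finset.sum_eq_zero
  intro j hj
  have h1 : a ≤ i := by
    by_contra h
    exact (Finsupp.mem_support_iff.1 hi) (hf i (not_le.1 h))
  have h2 : b ≤ j := by
    by_contra h
    exact (Finsupp.mem_support_iff.1 hj) (hg j (not_le.1 h))
  rw [if_neg (by omega)]

theorem Hi.mul {a b : ℤ} {f g : LP} (hf : Hi a f) (hg : Hi b g) : Hi (a + b) (f * g) := by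
  classical
  intro n hn
  rw [AddMonoidAlgebra.coeff_mul, Finsupp.sum]
  apply Finset.sum_eq_zero
  intro i hi
  rw [Finsupp.sum]
  apply Finset.sum_eq_zero
  intro j hj
  have h1 : i ≤ a := by
    by_contra h
    exact (Finsupp.mem_support_iff.1 hi) (hf i (not_le.1 h))
  have h2 : j ≤ b := by
    by_contra h
    exact (Finsupp.mem_support_iff.1 hj) (hg j (not_le.1 h))
  rw [if_neg (by omega)]

theorem Lo.mul' {a b c : ℤ} {f g : LP} (hf : Lo a f) (hg : Lo b g) (h : c ≤ a + b) :
    Lo c (f * g) := (hf.mul hg).mono h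

theorem Hi.mul' {a b c : ℤ} {f g : LP} (hf : Hi a f) (hg : Hi b g) (h : a + b ≤ c) :
    Hi c (f * g) := (hf.mul hg).mono h

/-- The lowest coefficient of a product. -/
theorem coeff_low {a b : ℤ} {f g : LP} (hf : Lo a f) (hg : Lo b g) :
    (f * g).coeff (a + b) = f.coeff a * g.coeff b := by
  classical
  rw [AddMonoidAlgebra.coeff_mul, Finsupp.sum]
  have hin : ∀ i ∈ f.coeff.support, (g.coeff.sum fun m₂ r₂ => if i + m₂ = a + b then
      f.coeff i * r₂ else 0) = if i = a then f.coeff a * g.coeff b else 0 := by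
    intro i hi
    have h1 : a ≤ i := by
      by_contra h
      exact (Finsupp.mem_support_iff.1 hi) (hf i (not_le.1 h))
    rw [Finsupp.sum]
    by_cases hia : i = a
    · subst hia
      rw [if_pos rfl]
      by_cases hb : g.coeff b = 0
      · rw [hb, mul_zero]
        apply Finset.sum_eq_zero
        intro j hj
        by_cases hjb : j = b
        · rw [hjb] at hj
          exact absurd hb (Finsupp.mem_support_iff.1 hj)
        · rw [if_neg (by omega)]
      · rw [Finset.sum_eq_single b]
        · rw [if_pos rfl]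
        · intro j hj hjb
          rw [if_neg (by omega)]
        · intro h
          exact absurd (Finsupp.mem_support_iff.2 hb) h
    · rw [if_neg hia]
      apply Finset.sum_eq_zero
      intro j hj
      have h2 : b ≤ j := by
        by_contra h
        exact (Finsupp.mem_support_iff.1 hj) (hg j (not_le.1 h))
      rw [if_neg (by omega)]
  rw [Finset.sum_congr rfl hin]
  by_cases ha : f.coeff a = 0
  · rw [ha, zero_mul]
    simp
  · rw [Finset.sum_ite_eq' f.coeff.support a, if_pos (Finsupp.mem_support_iff.2 ha)]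

theorem Lo.invert {a : ℤ} {f : LP} (hf : Lo a f) : Hi (-a) (invert f) := fun n hn => by
  rw [invert_apply]
  exact hf _ (by omega)

theorem Hi.invert {a : ℤ} {f : LP} (hf : Hi a f) : Lo (-a) (invert f) := fun n hn => by
  rw [invert_apply]
  exact hf _ (by omega)

theorem invert_invert (f : LP) : invert (invert f) = f := by
  ext n
  rw [invert_apply, invert_apply, neg_neg]

theorem eq_zero_of_Lo_Hi {a b : ℤ} {f : LP} (h1 : Lo a f) (h2 : Hi b f) (h : b < a) : f = 0 := by
  ext n
  rcases lt_or_ge n a with hn | hn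
  · exact h1 n hn
  · exact h2 n (by omega)

/-- A unit power series times a Laurent polynomial of bounded exponents. -/
theorem eq_zero_of_mul {w : ℤ} {A κ : LP} (hA : Lo 0 A) (hA0 : A.coeff 0 = 1) (hκ : Hi w κ)
    (h : Lo (w + 1) (A * κ)) : κ = 0 := by
  have key : ∀ j : ℕ, Lo (w + 1) κ ∨ ∃ b : ℤ, (∀ n < b, κ.coeff n = 0) ∧ b ≤ w ∧
      κ.coeff b ≠ 0 := by
    intro _
    by_cases h0 : κ.coeff.support.Nonempty
    · right
      refine ⟨κ.coeff.support.min' h0, fun n hn => ?_, ?_, ?_⟩
      · by_contra h1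
        have := κ.coeff.support.min'_le n (Finsupp.mem_support_iff.2 h1)
        omega
      · by_contra h1
        have h2 := κ.coeff.support.min'_mem h0
        exact (Finsupp.mem_support_iff.1 h2) (hκ _ (not_le.1 h1))
      · exact Finsupp.mem_support_iff.1 (κ.coeff.support.min'_mem h0)
    · left
      rw [Finset.not_nonempty_iff_eq_empty, Finsupp.support_eq_empty] at h0
      intro n _
      rw [h0, Finsupp.zero_apply]
  rcases key 0 with h1 | ⟨b, h1, h2, h3⟩
  · exact eq_zero_of_Lo_Hi h1 hκ (by omega)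
  · exfalso
    have h4 := coeff_low hA (show Lo b κ from h1)
    rw [hA0, one_mul, zero_add] at h4
    rw [h b (by omega)] at h4
    exact h3 h4.symm

theorem coeff_one_LP : (1 : LP).coeff = Finsupp.single 0 1 := rfl

/-- **The algebraic lemma.** -/
theorem rigid {w M : ℤ} (hw : 0 ≤ w) (hM : 4 * w < M) {A α s : LP} (hA : Lo 0 A)
    (hAr : Hi (M + w) A) (hA0 : A.coeff 0 = 1) (hα : Lo M α) (hα' : Hi (M + w) α)
    (hs : Lo (-w) s) (hs' : Hi w s) (hsym : invert s = s)
    (hE : Lo (M - w) (A * (invert α + s) - invert A)) :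
    s = 1 - α * invert α ∨ s = α * invert α - 1 := by
  have one_lo : Lo 0 (1 : LP) := by
    intro n hn
    rw [coeff_one_LP, Finsupp.single_apply, if_neg (by omega)]
  have one_hi : Hi 0 (1 : LP) := by
    intro n hn
    rw [coeff_one_LP, Finsupp.single_apply, if_neg (by omega)]
  set αb := invert α with hαb
  set Ab := invert A with hAb
  set E := A * (αb + s) - Ab with hEdef
  have hαb1 : Lo (-(M + w)) αb := hα'.invert
  have hαb2 : Hi (-M) αb := hα.invert
  have hAb1 : Lo (-(M + w)) Ab := hAr.invert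
  have hAb2 : Hi 0 Ab := by simpa using hA.invert
  have inv1 : invert αb = α := invert_invert α
  have inv2 : invert Ab = A := invert_invert A
  have hαα1 : Lo (-w) (α * αb) := hα.mul' hαb1 (by omega)
  have hαα2 : Hi w (α * αb) := hα'.mul' hαb2 (by omega)
  obtain ⟨κ, hκ⟩ : ∃ κ, κ = s + α * αb - 1 := ⟨_, rfl⟩
  have hκ1 : Lo (-w) κ := by
    rw [hκ]; exact (hs.add hαα1).sub (one_lo.mono (by omega))
  have hκ2 : Hi w κ := by
    rw [hκ]; exact (hs'.add hαα2).sub (one_hi.mono (by omega))
  have hκs : invert κ = κ := by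
    rw [hκ, map_sub, map_add, map_mul, map_one, inv1, hsym, ← hαb, mul_comm αb α]
  obtain ⟨X, hX⟩ : ∃ X, X = (1 + α) * Ab - A * (1 + αb) := ⟨_, rfl⟩
  have hXs : invert X = -X := by
    rw [hX, map_sub, map_mul, map_mul, map_add, map_add, map_one, inv1, inv2, ← hαb, ← hAb]
    ring
  obtain ⟨T3, hT3⟩ : ∃ T3, T3 = A * (α * s) - (1 + α) * E := ⟨_, rfl⟩
  have hαs : Lo (M - w) (α * s) := hα.mul' hs (by omega)
  have hT3lo : Lo (M - w) T3 := by
    rw [hT3]
    refine (hA.mul' hαs (by omega)).sub ?_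
    exact (one_lo.add (hα.mono (by omega))).mul' hE (by omega)
  have hXe : X = A * κ + T3 := by
    rw [hX, hT3, hEdef, hκ]
    ring
  have hX1 : Lo (-w) X := by
    rw [hXe]
    exact (hA.mul' hκ1 (by omega)).add (hT3lo.mono (by omega))
  have hX2 : Hi w X := by
    have h1 := hX1.invert
    rw [hXs, neg_neg] at h1
    have h2 := h1.neg
    rwa [neg_neg] at h2
  by_cases hX0 : X = 0
  · left
    have h1 : A * κ = -T3 := by
      rw [hX0] at hXe
      exact eq_neg_of_add_eq_zero_left hXe.symm
    have h2 : Lo (w + 1) (A * κ) := by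
      rw [h1]
      exact hT3lo.neg.mono (by omega)
    have h3 := eq_zero_of_mul hA hA0 hκ2 h2
    rw [hκ] at h3
    rw [eq_sub_iff_add_eq]
    exact sub_eq_zero.1 h3
  · right
    obtain ⟨Z, hZ⟩ : ∃ Z, Z = κ * A - X := ⟨_, rfl⟩
    have hZlo : Lo (M - w) Z := by
      have : Z = -T3 := by rw [hZ, hXe]; ring
      rw [this]
      exact hT3lo.neg
    have hZb : invert Z = κ * Ab + X := by
      rw [hZ, map_sub, map_mul, hκs, hXs, ← hAb, sub_neg_eq_add]
    have hZb2 : Hi (-(M - w)) (invert Z) := hZlo.invert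
    have hG : Lo (-(M + w)) (αb + s) := hαb1.add (hs.mono (by omega))
    have e1 : invert Z - X * αb = X * s + X + Z * (αb + s) - κ * E := by
      rw [hZb, hEdef, hZ]
      ring
    have h0 : invert Z - X * αb = 0 := by
      apply eq_zero_of_Lo_Hi (a := -2 * w) (b := -M + w) _ _ (by omega)
      · rw [e1]
        refine (((hX1.mul' hs (by omega)).add (hX1.mono (by omega))).add
          (hZlo.mul' hG (by omega))).sub (hκ1.mul' hE (by omega))
      · exact (hZb2.mono (by omega)).sub (hX2.mul' hαb2 (by omega))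
    have e2 : invert Z = X * αb := sub_eq_zero.1 h0
    have e3 : Z = -(X * α) := by
      have := congrArg invert e2
      rw [invert_invert, map_mul, hXs, inv1] at this
      rw [this]
      ring
    have e4 : κ * A = X * (1 - α) := by
      have : κ * A = X + Z := by rw [hZ]; ring
      rw [this, e3]
      ring
    have e5 : κ * Ab = -(X * (1 - αb)) := by
      have : κ * Ab = X * αb - X := by rw [← e2, hZb]; ring
      rw [this]
      ring
    have e6 : X * (s - α * αb + 1) = X * (α * s) + κ * E := by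
      have h1 : κ * A * (αb + s) = κ * (Ab + E) := by
        rw [hEdef]; ring
      rw [e4, mul_add κ, e5] at h1
      have h2 : κ * E = X * (1 - α) * (αb + s) + X * (1 - αb) := by
        rw [h1]; ring
      rw [h2]
      ring
    have h7 : X * (s - α * αb + 1) = 0 := by
      apply eq_zero_of_Lo_Hi (a := M - 2 * w) (b := 2 * w) _ _ (by omega)
      · rw [e6]
        exact (hX1.mul' hαs (by omega)).add (hκ1.mul' hE (by omega))
      · exact hX2.mul' ((hs'.sub hαα2).add (one_hi.mono hw)) (by omega)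
    rcases mul_eq_zero.1 h7 with h8 | h8
    · exact absurd h8 hX0
    · rw [← sub_eq_zero]
      rw [← h8]
      ring

end Pool.Agent.NPC.ER.CH
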