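import Pool.Agent.H625R2.CH.Enc
import Pool.Agent.H625R2.CH.Defs

/-!
# Linear forms as polynomials
-/

namespace Pool.Agent.NPC.ER.CH

/-! ### The coefficients of the shifted Chebyshev polynomials -/

/-- The coefficient of `x ^ t` in `T_d(1 - 2x)`. -/
def tau : ℕ → ℕ → ℤ
  | 0, t => if t = 0 then 1 else 0
  | 1, t => if t = 0 then 1 else if t = 1 then -2 else 0
  | d + 2, t => 2 * tau (d + 1) t - 4 * (if t = 0 then 0 else tau (d + 1) (t - 1)) - tau d t

theorem sum_tau (y : ℝ) : ∀ d L : ℕ, d < L →
    ∑ t ∈ Finset.range L, (tau d t : ℝ) * y ^ t = tch (1 - 2 * y) d := by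
  intro d
  induction d using Nat.strong_induction_on with
  | _ d ih =>
    intro L hL
    match d, ih, hL with
    | 0, _, hL =>
      obtain ⟨L, rfl⟩ : ∃ L', L = L' + 1 := ⟨L - 1, by omega⟩
      rw [Finset.sum_range_succ']
      simp [tau, tch]
    | 1, _, hL =>
      obtain ⟨L, rfl⟩ : ∃ L', L = L' + 2 := ⟨L - 2, by omega⟩
      rw [Finset.sum_range_succ', Finset.sum_range_succ']
      simp [tau, tch]
      ring
    | d + 2, ih, hL =>
      obtain ⟨L, rfl⟩ : ∃ L', L = L' + 1 := ⟨L - 1, by omega⟩
      have h1 := ih (d + 1) (by omega) (L + 1) (by omega)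
      have h2 := ih (d + 1) (by omega) L (by omega)
      have h3 := ih d (by omega) (L + 1) (by omega)
      have e1 : ∀ t ∈ Finset.range (L + 1), (tau (d + 2) t : ℝ) * y ^ t =
          2 * ((tau (d + 1) t : ℝ) * y ^ t) -
            4 * ((if t = 0 then 0 else (tau (d + 1) (t - 1) : ℝ)) * y ^ t) -
              (tau d t : ℝ) * y ^ t := by
        intro t _
        simp only [tau]
        push_cast
        split_ifs <;> ring
      rw [Finset.sum_congr rfl e1, Finset.sum_sub_distrib, Finset.sum_sub_distrib,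
        ← Finset.mul_sum, ← Finset.mul_sum, h1, h3]
      have e2 : ∑ t ∈ Finset.range (L + 1), (if t = 0 then 0 else (tau (d + 1) (t - 1) : ℝ)) * y ^ t =
          y * tch (1 - 2 * y) (d + 1) := by
        rw [Finset.sum_range_succ', ← h2, Finset.mul_sum]
        simp only [Nat.add_eq_zero_iff, one_ne_zero, and_false, if_false, Nat.add_sub_cancel,
          if_true, zero_mul, add_zero]
        apply Finset.sum_congr rfl
        intro t _
        ring
      rw [e2]
      simp only [tch]
      ring

theorem tau_lt (d t : ℕ) : (tau d t).natAbs ≤ 7 ^ d := by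
  induction d using Nat.strong_induction_on generalizing t with
  | _ d ih =>
    match d, ih with
    | 0, _ =>
      unfold tau
      split_ifs <;> simp
    | 1, _ =>
      unfold tau
      split_ifs <;> simp
    | d + 2, ih =>
      have h1 := ih (d + 1) (by omega) t
      have h2 := ih (d + 1) (by omega) (t - 1)
      have h3 := ih d (by omega) t
      have h4 : (7 : ℕ) ^ (d + 2) = 7 * 7 ^ (d + 1) := by ring
      have h5 : (7 : ℕ) ^ (d + 1) = 7 * 7 ^ d := by ring
      have h6 : (if t = 0 then 0 else tau (d + 1) (t - 1)).natAbs ≤ 7 ^ (d + 1) := by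
        split_ifs
        · simp
        · exact h2
      unfold tau
      omega

/-! ### Polynomials of forms -/

/-- The product of the indices of a form. -/
def Zf (f : Form) : ℕ := (f.map Prod.fst).prod

/-- The polynomial of a form, with the table `T` of the coefficients of the shifted Chebyshev
polynomials. -/
def fpol (T : List (List ℤ)) (L : ℕ) (f : Form) : List ℤ :=
  (List.range L).map fun t => (f.map fun p =>
    p.2 * ((Zf f / p.1 : ℕ) : ℤ) * (T.getD p.1 []).getD t 0).sum

/-- The row number `d` of the table. -/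
def row (L d : ℕ) : List ℤ := (List.range L).map (tau d)

/-- The table. -/
def tab (L : ℕ) : List (List ℤ) := (List.range (L + 2)).map (row L)

/-- Rational coefficients. -/
def toQ (l : List ℤ) : List ℚ := l.map (fun z : ℤ => (z : ℚ))

theorem tab_getD {L d t : ℕ} (hd : d < L) (ht : t < L) :
    ((tab L).getD d []).getD t 0 = tau d t := by
  have h1 : (tab L).getD d [] = row L d := by
    unfold tab
    rw [List.getD_eq_getElem _ _ (by simp; omega)]
    simp
  rw [h1]
  unfold row
  rw [List.getD_eq_getElem _ _ (by simpa using ht)]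
  simp

theorem pval_fpol {L : ℕ} {f : Form} (hf : ∀ p ∈ f, p.1 < L) (y : ℝ) :
    pval (toQ (fpol (tab L) L f)) y =
      (f.map fun p => ((p.2 : ℝ) * ((Zf f / p.1 : ℕ) : ℝ)) * tch (1 - 2 * y) p.1).sum := by
  unfold pval toQ fpol
  rw [List.length_map, List.length_map, List.length_range]
  have e1 : ∀ t ∈ Finset.range L, ((((List.range L).map fun t => (f.map fun p =>
      p.2 * ((Zf f / p.1 : ℕ) : ℤ) * ((tab L).getD p.1 []).getD t 0).sum).map
        (fun z : ℤ => (z : ℚ))).getD t 0 : ℚ) * y ^ t = (f.map fun p =>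
          ((p.2 : ℝ) * ((Zf f / p.1 : ℕ) : ℝ)) * ((tau p.1 t : ℝ) * y ^ t)).sum := by
    intro t ht
    rw [Finset.mem_range] at ht
    rw [List.getD_eq_getElem _ _ (by simp; omega)]
    simp only [List.getElem_map, List.getElem_range]
    rw [Rat.cast_intCast]
    have e2 : (f.map fun p => p.2 * ((Zf f / p.1 : ℕ) : ℤ) * ((tab L).getD p.1 []).getD t 0) =
        f.map fun p => p.2 * ((Zf f / p.1 : ℕ) : ℤ) * tau p.1 t := by
      apply List.map_congr_left
      intro p hp
      rw [tab_getD (hf p hp) ht]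
    rw [e2]
    generalize Zf f = Z
    clear hf e2
    induction f with
    | nil => simp
    | cons p f ih =>
      simp only [List.map_cons, List.sum_cons]
      rw [← ih, Int.cast_add, Int.cast_mul, Int.cast_mul, Int.cast_natCast]
      ring
  rw [Finset.sum_congr rfl e1]
  generalize Zf f = Z
  clear e1
  induction f with
  | nil => simp
  | cons p f ih =>
    simp only [List.map_cons, List.sum_cons]
    rw [Finset.sum_add_distrib, ih fun p hp => hf p (List.mem_cons_of_mem _ hp), ← Finset.mul_sum,
      sum_tau y p.1 L (hf p List.mem_cons_self)]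

/-! ### The two values -/

/-- The difference of the two values. -/
noncomputable def dv (F : ℝ → ℝ) (k : ℕ) (x : ℕ → ℝ) : ℝ := valPlus F k x - valMinus F k x

theorem dv_formula (F : ℝ → ℝ) (x : ℕ → ℝ) (m : ℕ) : dv F (2 * m) x =
    -F (x 0) + 2 * ∑ i ∈ Finset.range m, F (x (2 * i + 1)) -
      2 * ∑ i ∈ Finset.range m, F (x (2 * i + 2)) + F (x (2 * m + 1)) := by
  unfold dv valPlus valMinus
  simp only [Finset.sum_filter]
  induction m with
  | zero =>
    simp
    ring
  | succ m ih =>
    rw [show 2 * (m + 1) + 1 = 2 * m + 1 + 1 + 1 by ring, Finset.sum_range_succ,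
      Finset.sum_range_succ, Finset.sum_range_succ _ (2 * m + 1 + 1),
      Finset.sum_range_succ _ (2 * m + 1), Finset.sum_range_succ _ m, Finset.sum_range_succ _ m]
    have h1 : ¬ Even (2 * m + 1) := by
      rw [Nat.not_even_iff_odd]; exact ⟨m, rfl⟩
    have h2 : Even (2 * m + 1 + 1) := ⟨m + 1, by ring⟩
    have h3 : Odd (2 * m + 1) := ⟨m, rfl⟩
    have h4 : ¬ Odd (2 * m + 1 + 1) := by
      rw [Nat.not_odd_iff_even]; exact h2
    rw [if_neg h1, if_pos h2, if_pos h3, if_neg h4]
    linear_combination ih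

theorem dv_cheb (m d : ℕ) {x : ℕ → ℝ} (h0 : x 0 = 0) (h1 : x (2 * m + 1) = 1) (c : ℕ → ℝ)
    (hc : ∀ i < 2 * m, c i = 1 - 2 * x (i + 1)) :
    dv (fun y => tch (1 - 2 * y) d) (2 * m) x = -Bn c m d := by
  rw [dv_formula, h0, h1]
  have e1 : ∀ d, tch (1 - 2 * (0 : ℝ)) d = 1 ∧ tch (1 - 2 * (1 : ℝ)) d = (-1) ^ d := by
    intro d
    induction d using Nat.strong_induction_on with
    | _ d ih =>
      match d, ih with
      | 0, _ => simp [tch]
      | 1, _ => simp [tch]; norm_num
      | d + 2, ih =>
        obtain ⟨h1, h2⟩ := ih (d + 1) (by omega)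
        obtain ⟨h3, h4⟩ := ih d (by omega)
        simp only [tch]
        rw [h1, h2, h3, h4]
        constructor
        · norm_num
        · ring
  rw [(e1 d).1, (e1 d).2]
  unfold Bn
  have e2 : ∑ i ∈ Finset.range m, tch (1 - 2 * x (2 * i + 1)) d =
      ∑ i ∈ Finset.range m, tch (c (2 * i)) d := by
    apply Finset.sum_congr rfl
    intro i hi
    rw [Finset.mem_range] at hi
    rw [hc _ (by omega)]
  have e3 : ∑ i ∈ Finset.range m, tch (1 - 2 * x (2 * i + 2)) d =
      ∑ i ∈ Finset.range m, tch (c (2 * i + 1)) d := by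
    apply Finset.sum_congr rfl
    intro i hi
    rw [Finset.mem_range] at hi
    rw [hc _ (by omega)]
  rw [e2, e3]
  ring

theorem dv_list (m : ℕ) (x : ℕ → ℝ) (G : ℕ → ℝ → ℝ) (κ : ℕ × ℤ → ℝ) (f : Form) :
    dv (fun y => (f.map fun p => κ p * G p.1 y).sum) (2 * m) x =
      (f.map fun p => κ p * dv (G p.1) (2 * m) x).sum := by
  induction f with
  | nil => rw [dv_formula]; simp
  | cons p f ih =>
    simp only [List.map_cons, List.sum_cons]
    rw [← ih]
    simp only [dv_formula]
    rw [Finset.sum_add_distrib, Finset.sum_add_distrib, ← Finset.mul_sum, ← Finset.mul_sum]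
    ring

theorem Zf_dvd {f : Form} {p : ℕ × ℤ} (hp : p ∈ f) : p.1 ∣ Zf f :=
  List.dvd_prod (List.mem_map.2 ⟨p, hp, rfl⟩)

theorem Zf_pos {f : Form} (hf : ∀ p ∈ f, 1 ≤ p.1) : 0 < Zf f := by
  unfold Zf
  apply List.prod_pos
  intro a ha
  obtain ⟨p, hp, rfl⟩ := List.mem_map.1 ha
  exact hf p hp

/-- The condition of a form. -/
theorem fpol_iff {L m : ℕ} {f : Form} (hf : ∀ p ∈ f, 1 ≤ p.1 ∧ p.1 < L) {x c : ℕ → ℝ}
    (h0 : x 0 = 0) (h1 : x (2 * m + 1) = 1) (hc : ∀ i < 2 * m, c i = 1 - 2 * x (i + 1)) :
    valPlus (pval (toQ (fpol (tab L) L f))) (2 * m) x =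
      valMinus (pval (toQ (fpol (tab L) L f))) (2 * m) x ↔ FHolds (gdn c m) f := by
  rw [← sub_eq_zero]
  change dv _ _ _ = 0 ↔ _
  have e1 : pval (toQ (fpol (tab L) L f)) = fun y => (f.map fun p =>
      ((p.2 : ℝ) * ((Zf f / p.1 : ℕ) : ℝ)) * (fun d y => tch (1 - 2 * y) d) p.1 y).sum := by
    funext y
    exact pval_fpol (fun p hp => (hf p hp).2) y
  rw [e1, dv_list m x (fun d y => tch (1 - 2 * y) d)
    (fun p => (p.2 : ℝ) * ((Zf f / p.1 : ℕ) : ℝ))]
  have e2 : (f.map fun p => ((p.2 : ℝ) * ((Zf f / p.1 : ℕ) : ℝ)) *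
      dv ((fun d y => tch (1 - 2 * y) d) p.1) (2 * m) x) =
      f.map fun p => (-2 * (Zf f : ℝ)) * ((p.2 : ℝ) * gdn c m p.1) := by
    apply List.map_congr_left
    intro p hp
    have h2 := (hf p hp).1
    have h3 : (p.1 : ℝ) ≠ 0 := by positivity
    rw [dv_cheb m p.1 h0 h1 c hc, Nat.cast_div (Zf_dvd hp) h3]
    unfold gdn
    field_simp
  rw [e2, List.sum_map_mul_left]
  have hZ : (Zf f : ℝ) ≠ 0 := by
    have := Zf_pos fun p hp => (hf p hp).1
    positivity
  unfold FHolds
  constructor
  · intro h
    exact (mul_eq_zero.1 h).resolve_left (mul_ne_zero (by norm_num) hZ)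
  · intro h
    rw [h, mul_zero]

/-! ### The reduction -/

/-- The length of the coefficient lists. -/
def Lp (n : ℕ) : ℕ := Np n + Mp n

theorem Qp_le (n j : ℕ) : Qp n j < Lp n := by
  unfold Qp Lp Np Mp
  omega

theorem forms_bound {n : ℕ} {vs : List ℕ} {S : List Con}
    (hv : ∀ c ∈ S, ∀ i ∈ c.vars, vs.idxOf i < n) {f : Form} (hf : f ∈ forms n vs S)
    {p : ℕ × ℤ} (hp : p ∈ f) : 1 ≤ p.1 ∧ p.1 < Lp n := by
  have hQ : ∀ j < 2 * n, 1 ≤ Qp n j ∧ Qp n j < Lp n := fun j hj => by
    have := Qp_ge hj
    refine ⟨?_, Qp_le n j⟩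
    unfold sp at this
    omega
  have hone : ∀ c : ℤ, ∀ p ∈ onef n c, 1 ≤ p.1 ∧ p.1 < Lp n := by
    intro c p hp
    unfold onef at hp
    rcases List.mem_cons.1 hp with rfl | hp
    · unfold Lp Np Mp; simp only; omega
    · obtain ⟨a, ha, rfl⟩ := List.mem_map.1 hp
      rw [List.mem_range] at ha
      have := pos_lt (n := n) (show 2 * a + 1 < 2 * n by omega)
      unfold Lp Np Mp; simp only; omega
  unfold forms at hf
  simp only [List.mem_append] at hf
  rcases hf with hf | hf | hf | hf | hf
  · unfold fC1 at hf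
    obtain ⟨d, hd, rfl⟩ := List.mem_map.1 hf
    rw [List.mem_range] at hd
    split_ifs at hp with h1
    · simp at hp
    · rw [List.mem_singleton] at hp
      subst hp
      push Not at h1
      unfold Lp Np Mp at *
      simp only
      omega
  · unfold fC2 at hf
    obtain ⟨e, he, rfl⟩ := List.mem_map.1 hf
    rw [List.mem_range] at he
    simp only [List.mem_cons, List.not_mem_nil, or_false] at hp
    rcases hp with rfl | rfl <;> (unfold Lp Np Mp; simp only; omega)
  · unfold fC3 at hf
    obtain ⟨e, he, rfl⟩ := List.mem_map.1 hf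
    rw [List.mem_range] at he
    rw [List.mem_singleton] at hp
    subst hp
    unfold Lp Np Mp; simp only; omega
  · unfold fcopy at hf
    obtain ⟨a, ha, rfl⟩ := List.mem_map.1 hf
    rw [List.mem_range] at ha
    simp only [List.mem_cons, List.not_mem_nil, or_false] at hp
    rcases hp with rfl | rfl
    · exact hQ _ (by omega)
    · exact hQ _ (by omega)
  · obtain ⟨c, hc, rfl⟩ := List.mem_map.1 hf
    have hv' := hv c hc
    cases c with
    | one i =>
      have hi := hv' i (by simp [Con.vars])
      unfold fcon at hp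
      rcases List.mem_cons.1 hp with rfl | hp
      · exact hQ _ (by omega)
      · exact hone _ _ hp
    | add i j k =>
      have hi := hv' i (by simp [Con.vars])
      have hj := hv' j (by simp [Con.vars])
      have hk := hv' k (by simp [Con.vars])
      unfold fcon at hp
      simp only [List.mem_cons, List.not_mem_nil, or_false] at hp
      rcases hp with rfl | rfl | rfl
      · exact hQ _ (by omega)
      · exact hQ _ (by omega)
      · exact hQ _ (by omega)
    | mul i j k =>
      have hi := hv' i (by simp [Con.vars])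
      have hj := hv' j (by simp [Con.vars])
      have hk := hv' k (by simp [Con.vars])
      unfold fcon at hp
      simp only [List.mem_cons, List.not_mem_nil, or_false] at hp
      rcases hp with rfl | rfl
      · have h1 := pos_lt (n := n) (show 2 * vs.idxOf i < 2 * n by omega)
        have h2 := pos_lt (n := n) (show 2 * vs.idxOf j + 1 < 2 * n by omega)
        unfold dif Lp Np Mp; simp only; omega
      · exact hQ _ (by omega)

theorem sforms_bound {S : List Con} {f : Form} (hf : f ∈ sforms S) {p : ℕ × ℤ} (hp : p ∈ f) :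
    1 ≤ p.1 ∧ p.1 < Lp (nvar S) :=
  forms_bound (fun c hc i hi => by
    have := List.idxOf_lt_length_of_mem (mem_svars hc hi)
    unfold nvar
    omega) hf hp

/-- The reduction. -/
def red (S : List Con) : List (List ℚ) × ℕ :=
  ((sforms S).map fun f => toQ (fpol (tab (Lp (nvar S))) (Lp (nvar S)) f), 2 * mp (nvar S))

/-- **Correctness of the reduction.** -/
theorem red_iff (S : List Con) : Sat S ↔ ConsensusHalving (red S) := by
  constructor
  · intro h
    obtain ⟨c, h1, h2, h3⟩ := sforms_of_sat h
    set m := mp (nvar S) with hm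
    have hm1 : 1 ≤ m := by rw [hm]; unfold mp; omega
    set x : ℕ → ℝ := fun i => if i = 0 then 0 else if i ≤ 2 * m then (1 - c (i - 1)) / 2 else 1
      with hx
    have x0 : x 0 = 0 := by rw [hx]; simp
    have x1 : x (2 * m + 1) = 1 := by
      rw [hx]
      simp only
      rw [if_neg (by omega), if_neg (by omega)]
    have xi : ∀ i < 2 * m, x (i + 1) = (1 - c i) / 2 := by
      intro i hi
      rw [hx]
      simp only
      rw [if_neg (by omega), if_pos (by omega), Nat.add_sub_cancel]
    refine ⟨x, ⟨x0, x1, ?_⟩, ?_⟩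
    · intro i hi
      change i ≤ 2 * m at hi
      rcases Nat.eq_zero_or_pos i with h0 | h0
      · subst h0
        rw [x0, xi 0 (by omega)]
        have := (h1 0 (by omega)).2
        linarith
      · obtain ⟨j, rfl⟩ : ∃ j, i = j + 1 := ⟨i - 1, by omega⟩
        by_cases hj : j + 1 < 2 * m
        · rw [xi j (by omega), xi (j + 1) hj]
          have := h2 j hj
          linarith
        · have hj2 : j + 1 = 2 * m := by omega
          have := (h1 j (by omega)).1
          rw [xi j (by omega), hj2, x1]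
          linarith
    · intro p hp
      obtain ⟨f, hf, rfl⟩ := List.mem_map.1 hp
      exact (fpol_iff (c := c) (fun p hp => sforms_bound hf hp) x0 x1 fun i hi => by
        rw [xi i hi]; ring).2 (h3 f hf)
  · rintro ⟨x, ⟨x0, x1, _⟩, h⟩
    apply sat_of_sforms (c := fun i => 1 - 2 * x (i + 1))
    intro f hf
    exact (fpol_iff (fun p hp => sforms_bound hf hp) x0 x1 fun i _ => rfl).1
      (h _ (List.mem_map.2 ⟨f, hf, rfl⟩))

end Pool.Agent.NPC.ER.CH
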