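import Pool.Agent.H625R2.CH.Pol
import Pool.Agent.H687R2.IntPoly
import Pool.Agent.H612.OslpPoly
import Pool.Agent.ER.Hard

/-!
# The reduction is computable in polynomial time
-/

namespace Pool.Agent.NPC.ER.CH

open Pool.Agent.NPC

/-! ### The table -/

/-- The next row of the table. -/
def nextRow (L : ℕ) (a b : List ℤ) : List ℤ :=
  (List.range L).map fun t => 2 * b.getD t 0 - 4 * ((0 :: b).getD t 0) - a.getD t 0

/-- One step of the computation of the table. -/
def tstep (L : ℕ) (T : List (List ℤ)) : List (List ℤ) :=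
  nextRow L (T.getD 1 []) (T.getD 0 []) :: T

theorem row_getD {L d t : ℕ} (ht : t < L) : (row L d).getD t 0 = tau d t := by
  unfold row
  rw [List.getD_eq_getElem _ _ (by simpa using ht)]
  simp

theorem nextRow_row (L d : ℕ) : nextRow L (row L d) (row L (d + 1)) = row L (d + 2) := by
  unfold nextRow
  conv_rhs => unfold row
  apply List.map_congr_left
  intro t ht
  rw [List.mem_range] at ht
  rw [row_getD ht, row_getD ht]
  simp only [tau]
  cases t with
  | zero => simp
  | succ t =>
    rw [List.getD_cons_succ, row_getD (by omega)]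
    simp

/-- The start of the computation of the table. -/
def tinit (L : ℕ) : List (List ℤ) := [row L 1, row L 0]

theorem tstep_iter (L k : ℕ) :
    (tstep L)^[k] (tinit L) = ((List.range (k + 2)).map (row L)).reverse := by
  induction k with
  | zero => rfl
  | succ k ih =>
    rw [Function.iterate_succ_apply', ih]
    have e1 : (List.range (k + 2)).map (row L) =
        (List.range k).map (row L) ++ [row L k] ++ [row L (k + 1)] := by
      rw [List.range_succ, List.range_succ]
      simp
    have e2 : (List.range (k + 1 + 2)).map (row L) =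
        (List.range (k + 2)).map (row L) ++ [row L (k + 2)] := by
      rw [List.range_succ, List.map_append]
      rfl
    rw [e2, List.reverse_append, e1]
    simp only [List.reverse_append, List.reverse_cons, List.reverse_nil, List.nil_append,
      List.cons_append]
    unfold tstep
    rw [List.getD_cons_succ, List.getD_cons_zero, List.getD_cons_zero, nextRow_row]

theorem tab_eq (L : ℕ) : ((tstep L)^[L] (tinit L)).reverse = tab L := by
  rw [tstep_iter, List.reverse_reverse]
  rfl

theorem sz_row_le {L d : ℕ} (hd : d ≤ L + 1) : sz (row L d) ≤ L * (12 * L + 18) + 1 := by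
  have h1 := sz_le_length_mul (row L d) (12 * L + 17) fun x hx => by
    unfold row at hx
    obtain ⟨t, _, rfl⟩ := List.mem_map.1 hx
    have h2 := sz_int_le (tau d t)
    have h3 : (tau d t).natAbs < 2 ^ (3 * d) + 1 := by
      refine lt_of_le_of_lt (tau_lt d t) ?_
      calc (7 : ℕ) ^ d ≤ 8 ^ d := Nat.pow_le_pow_left (by norm_num) d
        _ = 2 ^ (3 * d) := by rw [pow_mul]; norm_num
        _ < 2 ^ (3 * d) + 1 := Nat.lt_succ_self _
    have h4 : (tau d t).natAbs ≤ 7 ^ d := tau_lt d t
    have h5 : (7 : ℕ) ^ d < 2 ^ (3 * d) ∨ d = 0 := by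
      rcases Nat.eq_zero_or_pos d with h | h
      · exact Or.inr h
      · left
        calc (7 : ℕ) ^ d < 8 ^ d := Nat.pow_lt_pow_left (by norm_num) (by omega)
          _ = 2 ^ (3 * d) := by rw [pow_mul]; norm_num
    have h6 : (tau d t).natAbs.size ≤ 3 * L + 3 := by
      rw [Nat.size_le]
      rcases h5 with h5 | h5
      · calc (tau d t).natAbs < 2 ^ (3 * d) := lt_of_le_of_lt h4 h5
          _ ≤ 2 ^ (3 * L + 3) := Nat.pow_le_pow_right (by norm_num) (by omega)
      · subst h5
        calc (tau 0 t).natAbs ≤ 1 := by simpa using h4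
          _ < 2 ^ (3 * L + 3) := Nat.one_lt_two_pow (by omega)
    omega
  have h2 : (row L d).length = L := by unfold row; simp
  rw [h2] at h1
  exact h1

theorem sz_iter_le {L k : ℕ} (hk : k ≤ L) :
    sz ((tstep L)^[k] (tinit L)) ≤ (L + 2) * (L * (12 * L + 18) + 2) + 1 := by
  rw [tstep_iter, sz_reverse]
  have h1 := sz_le_length_mul ((List.range (k + 2)).map (row L)) (L * (12 * L + 18) + 1)
    fun x hx => by
      obtain ⟨d, hd, rfl⟩ := List.mem_map.1 hx
      rw [List.mem_range] at hd
      exact sz_row_le (by omega)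
  rw [List.length_map, List.length_range] at h1
  refine h1.trans ?_
  have h2 : (k + 2) * (L * (12 * L + 18) + 1 + 1) ≤ (L + 2) * (L * (12 * L + 18) + 2) :=
    Nat.mul_le_mul (by omega) le_rfl
  omega

section

variable {α : Type} [TEnc α]

theorem poly_nextRow {L : α → ℕ} {a b : α → List ℤ} (hL : UPoly L) (ha : Poly a) (hb : Poly b) :
    Poly (fun x => nextRow (L x) (a x) (b x)) := by
  refine Poly.map (F := fun x t => 2 * (b x).getD t 0 - 4 * ((0 :: b x).getD t 0) -
    (a x).getD t 0) hL.range ?_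
  have g : Poly (fun p : α × ℕ => p.1) := Poly.fst Poly.id
  have ht : Poly (fun p : α × ℕ => p.2) := Poly.snd Poly.id
  have e1 : Poly (fun p : α × ℕ => (b p.1).getD p.2 0) := Poly.getD (hb.comp g) ht (Poly.const 0)
  have e2 : Poly (fun p : α × ℕ => (0 :: b p.1).getD p.2 0) :=
    Poly.getD (Poly.cons (Poly.const (0 : ℤ)) (hb.comp g)) ht (Poly.const 0)
  have e3 : Poly (fun p : α × ℕ => (a p.1).getD p.2 0) := Poly.getD (ha.comp g) ht (Poly.const 0)
  exact Poly.isub (Poly.isub (Poly.imul (Poly.const 2) e1) (Poly.imul (Poly.const 4) e2)) e3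

theorem poly_tstep {L : α → ℕ} {T : α → List (List ℤ)} (hL : UPoly L) (hT : Poly T) :
    Poly (fun x => tstep (L x) (T x)) :=
  Poly.cons (poly_nextRow hL (Poly.getD hT (Poly.const 1) (Poly.const []))
    (Poly.getD hT (Poly.const 0) (Poly.const []))) hT

theorem poly_row {L : α → ℕ} (hL : UPoly L) {d : ℕ} (hd : d ≤ 1) :
    Poly (fun x => row (L x) d) := by
  refine Poly.map (F := fun _ t => tau d t) hL.range ?_
  have ht : Poly (fun p : α × ℕ => p.2) := Poly.snd Poly.id
  have h0 := Poly.decide_eq ht (Poly.const 0)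
  have h1 := Poly.decide_eq ht (Poly.const 1)
  rcases (show d = 0 ∨ d = 1 by omega) with rfl | rfl
  · refine (Poly.ite h0 (Poly.const (1 : ℤ)) (Poly.const 0)).congr fun p => ?_
    simp only [tau]
  · refine (Poly.ite h0 (Poly.const (1 : ℤ)) (Poly.ite h1 (Poly.const (-2)) (Poly.const 0))).congr
      fun p => ?_
    simp only [tau]

theorem poly_tinit {L : α → ℕ} (hL : UPoly L) : Poly (fun x => tinit (L x)) :=
  Poly.cons (poly_row hL le_rfl) (Poly.cons (poly_row hL (by norm_num)) (Poly.const []))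

/-- The table is computable in polynomial time. -/
theorem poly_tab {L : α → ℕ} (hL : UPoly L) : Poly (fun x => tab (L x)) := by
  obtain ⟨q, hq⟩ := Poly.sz_le hL
  have hLq : ∀ a, L a ≤ q.eval (sz a) := fun a => by
    have h1 := length_lt_sz (List.replicate (L a) ())
    rw [List.length_replicate] at h1
    exact h1.le.trans (hq a)
  have h := Poly.iterLen (l := fun x => List.replicate (L x) ()) (s := fun x => tinit (L x))
    (F := fun x T => tstep (L x) T) hL (poly_tinit hL)
    (poly_tstep (hL.comp (Poly.fst Poly.id)) (Poly.snd Poly.id))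
    ((q + Polynomial.C 2) * (q * (Polynomial.C 12 * q + Polynomial.C 18) + Polynomial.C 2) +
      Polynomial.C 1) ?_
  · refine (Poly.reverse h).congr fun a => ?_
    simp only [List.length_replicate]
    exact tab_eq (L a)
  · intro a k hk
    rw [List.length_replicate] at hk
    refine (sz_iter_le hk).trans ?_
    simp only [Polynomial.eval_add, Polynomial.eval_mul, Polynomial.eval_C]
    have h1 := hLq a
    gcongr

/-! ### Products -/

theorem size_prod_le (l : List ℕ) : l.prod.size ≤ sz l := by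
  induction l with
  | nil => simp
  | cons x l ih =>
    rw [List.prod_cons, sz_list_cons]
    have h1 := size_le_sz x
    have h2 : (x * l.prod).size ≤ x.size + l.prod.size := by
      rw [Nat.size_le, pow_add]
      exact Nat.mul_lt_mul'' (Nat.lt_size_self x) (Nat.lt_size_self _)
    omega

theorem poly_prodNat {l : α → List ℕ} (hl : Poly l) : Poly (fun a => (l a).prod) := by
  obtain ⟨r, hr⟩ := hl.sz_le
  have key : ∀ l : List ℕ, l.foldr (fun x s => x * s) 1 = l.prod := by
    intro l
    induction l with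
    | nil => rfl
    | cons x l ih => rw [List.foldr_cons, ih, List.prod_cons]
  refine (Poly.foldr (s := fun _ => 1) (F := fun _ x s => x * s) hl (Poly.const 1)
    (Poly.mul (Poly.fst (Poly.snd Poly.id)) (Poly.snd (Poly.snd Poly.id)))
    (Polynomial.C 4 * r + Polynomial.C 1) ?_).congr fun a => key _
  intro a k _
  rw [key]
  have h1 := sz_nat_le ((l a).drop k).prod
  have h2 := size_prod_le ((l a).drop k)
  have h3 := Poly.sz_drop_le (l a) k
  have h4 := hr a
  simp only [Polynomial.eval_add, Polynomial.eval_mul, Polynomial.eval_C]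
  omega

/-! ### The polynomial of a form -/

theorem poly_Zf {f : α → Form} (hf : Poly f) : Poly (fun a => Zf (f a)) :=
  poly_prodNat (Poly.map (F := fun _ p => p.1) hf (Poly.fst (Poly.snd Poly.id)))

theorem poly_fpol {T : α → List (List ℤ)} {L : α → ℕ} {f : α → Form} (hT : Poly T)
    (hL : UPoly L) (hf : Poly f) : Poly (fun a => fpol (T a) (L a) (f a)) := by
  refine Poly.map (F := fun a t => ((f a).map fun p =>
    p.2 * ((Zf (f a) / p.1 : ℕ) : ℤ) * ((T a).getD p.1 []).getD t 0).sum) hL.range ?_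
  have g : Poly (fun p : α × ℕ => p.1) := Poly.fst Poly.id
  refine Poly.isum (Poly.map (F := fun (x : α × ℕ) (p : ℕ × ℤ) =>
    p.2 * ((Zf (f x.1) / p.1 : ℕ) : ℤ) * ((T x.1).getD p.1 []).getD x.2 0) (hf.comp g) ?_)
  have g1 : Poly (fun x : (α × ℕ) × (ℕ × ℤ) => x.1.1) := Poly.fst (Poly.fst Poly.id)
  have g2 : Poly (fun x : (α × ℕ) × (ℕ × ℤ) => x.1.2) := Poly.snd (Poly.fst Poly.id)
  have g3 : Poly (fun x : (α × ℕ) × (ℕ × ℤ) => x.2.1) := Poly.fst (Poly.snd Poly.id)
  have g4 : Poly (fun x : (α × ℕ) × (ℕ × ℤ) => x.2.2) := Poly.snd (Poly.snd Poly.id)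
  exact Poly.imul (Poly.imul g4 (Poly.natCast (Poly.div ((poly_Zf hf).comp g1) g3)))
    (Poly.getD (Poly.getD (hT.comp g1) g3 (Poly.const [])) g2 (Poly.const 0))

theorem poly_intToRat {z : α → ℤ} (hz : Poly z) : Poly (fun a => ((z a : ℤ) : ℚ)) := by
  have h : Poly (fun a => (z a, (1 : ℕ))) := Poly.pair hz (Poly.const 1)
  have h2 : Poly (fun a => (((z a : ℤ) : ℚ).num, ((z a : ℤ) : ℚ).den)) := h.congr fun a => by simp
  exact h2

theorem poly_toQ {l : α → List ℤ} (hl : Poly l) : Poly (fun a => toQ (l a)) :=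
  Poly.map (F := fun _ z => ((z : ℤ) : ℚ)) hl (poly_intToRat (Poly.snd Poly.id))

/-! ### The forms -/

variable {n : α → ℕ}

theorem upoly_Kp (hn : UPoly n) : UPoly (fun a => Kp (n a)) := ((UPoly.const 8).mul hn).mul hn

theorem upoly_wp (hn : UPoly n) : UPoly (fun a => wp (n a)) :=
  ((UPoly.const 2).mul hn).mul (upoly_Kp hn)

theorem upoly_Mp (hn : UPoly n) : UPoly (fun a => Mp (n a)) :=
  ((UPoly.const 4).mul (upoly_wp hn)).add (UPoly.const 1)

theorem upoly_Np (hn : UPoly n) : UPoly (fun a => Np (n a)) :=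
  ((UPoly.const 13).mul (upoly_wp hn)).add (UPoly.const 3)

theorem upoly_mp (hn : UPoly n) : UPoly (fun a => mp (n a)) :=
  ((((UPoly.const 104).mul hn).mul hn).mul hn).add (UPoly.const 1)

theorem upoly_Lp (hn : UPoly n) : UPoly (fun a => Lp (n a)) := (upoly_Np hn).add (upoly_Mp hn)

theorem poly_pos (hn : UPoly n) {j : α → ℕ} (hj : Poly j) : Poly (fun a => pos (n a) (j a)) :=
  Poly.add (Poly.mul hj (upoly_Kp hn).toPoly) (Poly.mul hj hj)

theorem poly_Qp (hn : UPoly n) {j : α → ℕ} (hj : Poly j) : Poly (fun a => Qp (n a) (j a)) :=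
  Poly.sub (upoly_Np hn).toPoly (Poly.add (upoly_Mp hn).toPoly (poly_pos hn hj))

theorem poly_pairZ {d : α → ℕ} {z : α → ℤ} (hd : Poly d) (hz : Poly z) :
    Poly (fun a => (d a, z a)) := Poly.pair hd hz

theorem UPoly.of_sub {u v : α → ℕ} (hu : UPoly u) (hv : UPoly v) : UPoly (fun a => u a - v a) :=
  UPoly.of_le (Poly.sub hu.toPoly hv.toPoly) hu fun _ => Nat.sub_le _ _

theorem poly_fC1 (hn : UPoly n) : Poly (fun a => fC1 (n a)) := by
  refine Poly.map (F := fun a d => if d = 0 ∨ d ∈ (List.range (2 * n a)).map (Qp (n a)) then []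
    else [(d, (1 : ℤ))]) (UPoly.of_sub (upoly_Np hn) (upoly_wp hn)).range ?_
  have g : Poly (fun p : α × ℕ => p.1) := Poly.fst Poly.id
  have ht : Poly (fun p : α × ℕ => p.2) := Poly.snd Poly.id
  have hr : Poly (fun p : α × ℕ => (List.range (2 * n p.1)).map (Qp (n p.1))) := by
    refine Poly.map (F := fun (p : α × ℕ) j => Qp (n p.1) j)
      ((UPoly.const 2).mul (hn.comp g)).range ?_
    exact poly_Qp (n := fun x : (α × ℕ) × ℕ => n x.1.1) (hn.comp (Poly.fst (Poly.fst Poly.id)))
      (Poly.snd Poly.id)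
  exact Poly.ite (Poly.decide_or (Poly.decide_eq ht (Poly.const 0)) (Poly.decide_mem ht hr))
    (Poly.const []) (Poly.cons (poly_pairZ ht (Poly.const 1)) (Poly.const []))

theorem poly_fC2 (hn : UPoly n) : Poly (fun a => fC2 (n a)) := by
  refine Poly.map (F := fun a e => [(Np (n a) + (e + 1), (1 : ℤ)), (Np (n a) - (e + 1), -1)])
    (upoly_wp hn).range ?_
  have g : Poly (fun p : α × ℕ => p.1) := Poly.fst Poly.id
  have ht : Poly (fun p : α × ℕ => p.2 + 1) := Poly.succ (Poly.snd Poly.id)
  have hN : Poly (fun p : α × ℕ => Np (n p.1)) := (upoly_Np (hn.comp g)).toPoly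
  exact Poly.cons (poly_pairZ (Poly.add hN ht) (Poly.const 1))
    (Poly.cons (poly_pairZ (Poly.sub hN ht) (Poly.const (-1))) (Poly.const []))

theorem poly_fC3 (hn : UPoly n) : Poly (fun a => fC3 (n a)) := by
  refine Poly.map (F := fun a e => [(Np (n a) + (wp (n a) + 1 + e), (1 : ℤ))])
    ((UPoly.const 2).mul (upoly_wp hn)).range ?_
  have g : Poly (fun p : α × ℕ => p.1) := Poly.fst Poly.id
  have ht : Poly (fun p : α × ℕ => p.2) := Poly.snd Poly.id
  have hN : Poly (fun p : α × ℕ => Np (n p.1)) := (upoly_Np (hn.comp g)).toPoly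
  have hw : Poly (fun p : α × ℕ => wp (n p.1)) := (upoly_wp (hn.comp g)).toPoly
  exact Poly.cons (poly_pairZ (Poly.add hN (Poly.add (Poly.succ hw) ht)) (Poly.const 1))
    (Poly.const [])

theorem poly_fcopy (hn : UPoly n) : Poly (fun a => fcopy (n a)) := by
  refine Poly.map (F := fun a e => [(Qp (n a) (2 * e), (1 : ℤ)), (Qp (n a) (2 * e + 1), -1)])
    hn.range ?_
  have g : Poly (fun p : α × ℕ => p.1) := Poly.fst Poly.id
  have ht : Poly (fun p : α × ℕ => 2 * p.2) := Poly.mul (Poly.const 2) (Poly.snd Poly.id)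
  have hn' : UPoly (fun p : α × ℕ => n p.1) := hn.comp g
  exact Poly.cons (poly_pairZ (poly_Qp hn' ht) (Poly.const 1))
    (Poly.cons (poly_pairZ (poly_Qp hn' (Poly.succ ht)) (Poly.const (-1))) (Poly.const []))

theorem poly_onef (hn : UPoly n) {c : α → ℤ} (hc : Poly c) :
    Poly (fun a => onef (n a) (c a)) := by
  refine Poly.cons (poly_pairZ (upoly_Np hn).toPoly hc) ?_
  refine Poly.map (F := fun a e => (Np (n a) + (pos (n a) (2 * e + 1) - pos (n a) (2 * e)),
    -2 * c a)) hn.range ?_
  have g : Poly (fun p : α × ℕ => p.1) := Poly.fst Poly.id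
  have ht : Poly (fun p : α × ℕ => 2 * p.2) := Poly.mul (Poly.const 2) (Poly.snd Poly.id)
  have hn' : UPoly (fun p : α × ℕ => n p.1) := hn.comp g
  exact poly_pairZ (Poly.add (upoly_Np hn').toPoly (Poly.sub (poly_pos hn' (Poly.succ ht))
    (poly_pos hn' ht))) (Poly.imul (Poly.const (-2)) (hc.comp g))

theorem poly_dif (hn : UPoly n) {i j : α → ℕ} (hi : Poly i) (hj : Poly j) :
    Poly (fun a => dif (n a) (i a) (j a)) :=
  Poly.add (Poly.sub (poly_pos hn hi) (poly_pos hn hj))
    (Poly.sub (poly_pos hn hj) (poly_pos hn hi))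

theorem fcon_eq (n : ℕ) (vs : List ℕ) (c : Con) : fcon n vs c =
    if c.code.1 = 0 then (Qp n (2 * vs.idxOf c.code.2.1), 16 * (n : ℤ)) :: onef n (-1)
    else if c.code.1 = 1 then [(Qp n (2 * vs.idxOf c.code.2.1), 1),
      (Qp n (2 * vs.idxOf c.code.2.2.1), 1), (Qp n (2 * vs.idxOf c.code.2.2.2), -1)]
    else [(Np n + dif n (2 * vs.idxOf c.code.2.1) (2 * vs.idxOf c.code.2.2.1 + 1), 2 * (n : ℤ)),
      (Qp n (2 * vs.idxOf c.code.2.2.2), 1)] := by
  cases c <;> rfl

theorem poly_fcon (hn : UPoly n) {vs : α → List ℕ} {c : α → Con} (hvs : Poly vs) (hc : Poly c) :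
    Poly (fun a => fcon (n a) (vs a) (c a)) := by
  have h0 : Poly (fun a => (c a).code) := poly_con_code hc
  have h1 : Poly (fun a => (c a).code.1) := Poly.fst h0
  have hi : Poly (fun a => 2 * (vs a).idxOf (c a).code.2.1) :=
    Poly.mul (Poly.const 2) (H612.poly_idxOf hvs (Poly.fst (Poly.snd h0)))
  have hj : Poly (fun a => 2 * (vs a).idxOf (c a).code.2.2.1) :=
    Poly.mul (Poly.const 2) (H612.poly_idxOf hvs (Poly.fst (Poly.snd (Poly.snd h0))))
  have hk : Poly (fun a => 2 * (vs a).idxOf (c a).code.2.2.2) :=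
    Poly.mul (Poly.const 2) (H612.poly_idxOf hvs (Poly.snd (Poly.snd (Poly.snd h0))))
  have hnz : Poly (fun a => (n a : ℤ)) := Poly.natCast hn.toPoly
  have key := Poly.ite (Poly.decide_eq h1 (Poly.const 0))
    (Poly.cons (poly_pairZ (poly_Qp hn hi) (Poly.imul (Poly.const 16) hnz))
      (poly_onef hn (Poly.const (-1))))
    (Poly.ite (Poly.decide_eq h1 (Poly.const 1))
      (Poly.cons (poly_pairZ (poly_Qp hn hi) (Poly.const 1))
        (Poly.cons (poly_pairZ (poly_Qp hn hj) (Poly.const 1))
          (Poly.cons (poly_pairZ (poly_Qp hn hk) (Poly.const (-1))) (Poly.const []))))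
      (Poly.cons (poly_pairZ (Poly.add (upoly_Np hn).toPoly (poly_dif hn hi (Poly.succ hj)))
        (Poly.imul (Poly.const 2) hnz))
        (Poly.cons (poly_pairZ (poly_Qp hn hk) (Poly.const 1)) (Poly.const []))))
  exact key.congr fun a => (fcon_eq _ _ _).symm

theorem poly_forms (hn : UPoly n) {vs : α → List ℕ} {S : α → List Con} (hvs : Poly vs)
    (hS : Poly S) : Poly (fun a => forms (n a) (vs a) (S a)) := by
  refine (poly_fC1 hn).append ((poly_fC2 hn).append ((poly_fC3 hn).append
    ((poly_fcopy hn).append ?_)))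
  refine Poly.map (F := fun a c => fcon (n a) (vs a) c) hS ?_
  have g : Poly (fun p : α × Con => p.1) := Poly.fst Poly.id
  exact poly_fcon (hn.comp g) (hvs.comp g) (Poly.snd Poly.id)

end

theorem upoly_nvar : UPoly nvar :=
  (UPoly.length (Oslp.poly_svars (poly_bsys Poly.id))).add (UPoly.const 1)

theorem poly_sforms : Poly sforms :=
  poly_forms upoly_nvar (Oslp.poly_svars (poly_bsys Poly.id)) (poly_bsys Poly.id)

/-- The polynomials of the forms, with the table as an argument. -/
def polsT (x : List Con × List (List ℤ)) : List (List ℚ) :=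
  (sforms x.1).map fun f => toQ (fpol x.2 (Lp (nvar x.1)) f)

theorem poly_polsT : Poly polsT := by
  have g1 : Poly (fun p : (List Con × List (List ℤ)) × Form => p.1.1) :=
    Poly.fst (Poly.fst Poly.id)
  have g2 : Poly (fun p : (List Con × List (List ℤ)) × Form => p.1.2) :=
    Poly.snd (Poly.fst Poly.id)
  have g3 : Poly (fun p : (List Con × List (List ℤ)) × Form => p.2) := Poly.snd Poly.id
  have hL : UPoly (fun p : (List Con × List (List ℤ)) × Form => Lp (nvar p.1.1)) :=
    upoly_Lp (UPoly.comp upoly_nvar g1)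
  have h1 : Poly (fun p : (List Con × List (List ℤ)) × Form =>
      toQ (fpol p.1.2 (Lp (nvar p.1.1)) p.2)) := poly_toQ (poly_fpol g2 hL g3)
  have h2 : Poly (fun x : List Con × List (List ℤ) => sforms x.1) :=
    Poly.comp poly_sforms (Poly.fst Poly.id)
  exact Poly.map (F := fun (x : List Con × List (List ℤ)) f => toQ (fpol x.2 (Lp (nvar x.1)) f))
    h2 h1

/-- **The reduction is computable in polynomial time.** -/
theorem poly_red : Poly red := by
  have hL : UPoly (fun S => Lp (nvar S)) := upoly_Lp upoly_nvar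
  have hT : Poly (fun S => tab (Lp (nvar S))) := poly_tab hL
  have h1 : Poly (fun S : List Con => (S, tab (Lp (nvar S)))) := Poly.pair Poly.id hT
  have h2 : Poly (fun S : List Con => polsT (S, tab (Lp (nvar S)))) := Poly.comp poly_polsT h1
  have h3 : Poly (fun S : List Con => 2 * mp (nvar S)) :=
    Poly.mul (Poly.const 2) (upoly_mp upoly_nvar).toPoly
  exact Poly.congr (Poly.pair h2 h3) fun S => rfl

/-- **Polynomial consensus halving is `∃ℝ`-hard.** -/
theorem consensus_halving_hard : ERHard (lang ConsensusHalving) :=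
  ERHard.of_sys poly_red red_iff

end Pool.Agent.NPC.ER.CH
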